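import Pool.Agent.Run7.h95.LF.Full
import Pool.Agent.R482.ST.Frac

/-!
# Families of exceptional tuples of fractions and generic linear forms

For each `X ≥ 1` let the members of denominators at most `X` with a relation of size `(X ^ A, X ^ (-B))` be at most `C X ^ s`
in number. Then for all matrices `α` outside a set of small Hausdorff dimension, for all but finitely many `i` the members
whose denominators and numerators are near the entries of `α v_i` have no relation of size `(H ^ A, H ^ (-B'))`, `H` their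
height.
-/

set_option autoImplicit false

open Filter Topology Finset MeasureTheory

namespace Run7.h95.LF

open Pool.Agent.N251.LF (Fam)
open Pool.Agent.R482.ST (dyadic finite_rat)

/-- **The abstract theorem.** -/
theorem rel_lin {T : Type} {m : ℕ} (I : Set T) (V : T → Fin m → ℝ) (D : T → ℝ → Prop) (Rel : T → ℝ → ℝ → Prop)
    (hD : ∀ t X, ‖V t‖ ≤ X → D t X)
    (hR : ∀ t M δ M' δ', M ≤ M' → δ ≤ δ' → Rel t M δ → Rel t M' δ')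
    (hF : ∀ X : ℝ, {t | ‖V t‖ ≤ X}.Finite) (hV : ∀ t, 1 ≤ ‖V t‖) {A s : ℝ} (hA : 0 ≤ A) (hs : 0 < s)
    (hcount : ∃ B C : ℝ, ∀ X : ℝ, 1 ≤ X → {t | t ∈ I ∧ D t X ∧ Rel t (X ^ A) (X ^ (-B))}.Finite ∧
      ({t | t ∈ I ∧ D t X ∧ Rel t (X ^ A) (X ^ (-B))}.ncard : ℝ) ≤ C * X ^ s) :
    ∃ B : ℝ, ∀ (k : ℕ) (ι : Type) (v : ι → Fin k → ℝ) (τ θ : ℝ), 0 ≤ τ → θ < 1 → Fam v τ →
      ∃ E : Set (Fin m × Fin k → ℝ), dimH E ≤ ENNReal.ofReal ((m : ℝ) * ((k : ℝ) - 1) + (s + τ) / (1 - θ)) ∧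
        (1 ≤ m → 1 ≤ k → m * θ < m - s - τ → dimH E < ((m * k : ℕ) : ENNReal) ∧ volume E = 0) ∧
        ∀ α, α ∉ E → ∀ c : ℝ, {i | ∃ t ∈ I, (∀ l, |V t l - ∑ j, α (l, j) * v i j| ≤ c * ‖v i‖ ^ θ) ∧
          Rel t (‖V t‖ ^ A) (‖V t‖ ^ (-B))}.Finite := by
  obtain ⟨B, C, hC⟩ := hcount
  refine ⟨|B| + 1, fun k ι v τ θ hτ hθ hv => ?_⟩
  obtain ⟨C', hC'⟩ := dyadic I V D Rel hD hR hF hA hs hC
  obtain ⟨E, h1, h2, h3⟩ := full_mat
    {t | t ∈ I ∧ Rel t ((2 * ‖V t‖) ^ A) ((‖V t‖ / 2) ^ (-(|B| + 1)))} V v hs.le hτ hθ hv (by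
      intro ε hε
      refine ⟨|C'|, fun X hX => ?_⟩
      have hX0 : 0 < X := by linarith
      obtain ⟨f1, f2⟩ := hC' X hX
      have hsub : {t | t ∈ {t | t ∈ I ∧ Rel t ((2 * ‖V t‖) ^ A) ((‖V t‖ / 2) ^ (-(|B| + 1)))} ∧ ∀ l, |V t l| ≤ X} ⊆
          {t | (t ∈ I ∧ Rel t ((2 * ‖V t‖) ^ A) ((‖V t‖ / 2) ^ (-(|B| + 1)))) ∧ ‖V t‖ ≤ X} :=
        fun t ht => ⟨ht.1, (pi_norm_le_iff_of_nonneg hX0.le).2 ht.2⟩
      refine ⟨f1.subset hsub, ?_⟩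
      have f3 : (({t | t ∈ {t | t ∈ I ∧ Rel t ((2 * ‖V t‖) ^ A) ((‖V t‖ / 2) ^ (-(|B| + 1)))} ∧
          ∀ l, |V t l| ≤ X}.ncard : ℕ) : ℝ) ≤
          ({t | (t ∈ I ∧ Rel t ((2 * ‖V t‖) ^ A) ((‖V t‖ / 2) ^ (-(|B| + 1)))) ∧ ‖V t‖ ≤ X}.ncard : ℝ) := by
        exact_mod_cast Set.ncard_le_ncard hsub f1
      refine (f3.trans f2).trans ?_
      exact mul_le_mul (le_abs_self _) (Real.rpow_le_rpow_of_exponent_le hX (by linarith)) (by positivity)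
        (abs_nonneg _))
  refine ⟨E, h1, h2, fun α hα c => (h3 α hα c).subset ?_⟩
  rintro i ⟨t, ht, htw, hRel⟩
  have g7 : 0 < ‖V t‖ := lt_of_lt_of_le one_pos (hV t)
  refine ⟨t, ⟨ht, hR t _ _ _ _ ?_ ?_ hRel⟩, htw⟩
  · exact Real.rpow_le_rpow g7.le (by linarith) hA
  · exact Real.rpow_le_rpow_of_nonpos (by positivity) (by linarith) (by linarith [abs_nonneg B])

/-! ## One fraction -/

/-- the height of a rational number: the maximum of the absolute values of numerator and denominator -/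
def ht (q : ℚ) : ℕ := max q.num.natAbs q.den

/-- denominator and numerator -/
noncomputable def dn (q : ℚ) : Fin 2 → ℝ := ![(q.den : ℝ), (q.num : ℝ)]

lemma norm_dn (q : ℚ) : ‖dn q‖ = (ht q : ℝ) := by
  have ha : |(q.num : ℝ)| = (q.num.natAbs : ℝ) := by
    rw [← Int.cast_abs, Int.abs_eq_natAbs]
    simp
  have h0 : ‖dn q 0‖ = (q.den : ℝ) := by
    show |(q.den : ℝ)| = _
    exact abs_of_nonneg (Nat.cast_nonneg _)
  have h1 : ‖dn q 1‖ = (q.num.natAbs : ℝ) := ha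
  apply le_antisymm
  · refine (pi_norm_le_iff_of_nonneg (Nat.cast_nonneg _)).2 fun l => ?_
    unfold ht
    rw [Nat.cast_max]
    fin_cases l
    · exact h0.le.trans (le_max_right _ _)
    · exact h1.le.trans (le_max_left _ _)
  · unfold ht
    rw [Nat.cast_max]
    refine max_le ?_ ?_
    · rw [← h1]
      exact norm_le_pi_norm (dn q) 1
    · rw [← h0]
      exact norm_le_pi_norm (dn q) 0

lemma one_le_ht (q : ℚ) : (1 : ℝ) ≤ (ht q : ℝ) := by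
  have h1 : 1 ≤ q.den := q.den_pos
  have h2 : 1 ≤ ht q := h1.trans (le_max_right _ _)
  exact_mod_cast h2

/-- The denominator and the numerator of `q` differ by at most `δ` from the two entries of `α x`. -/
def NearOne {k : ℕ} (α : Fin 2 × Fin k → ℝ) (x : Fin k → ℝ) (δ : ℝ) (q : ℚ) : Prop :=
  |(q.den : ℝ) - ∑ j, α (0, j) * x j| ≤ δ ∧ |(q.num : ℝ) - ∑ j, α (1, j) * x j| ≤ δ

/-- polynomial relations between numbers attached to one fraction -/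
theorem poly_one {ι₀ : Type} (lo hi : ℝ) (N : ℚ → MvPolynomial ι₀ ℤ → ℝ) (d : ℕ) {A β : ℝ} (hA : 0 ≤ A)
    (hβ : 0 < β) (hcount : ∃ B C : ℝ, ∀ T : ℝ, 1 ≤ T →
      {q : ℚ | lo ≤ q ∧ q ≤ hi ∧ (q.den : ℝ) ≤ T ∧
        ∃ P : MvPolynomial ι₀ ℤ, P ≠ 0 ∧ (∀ x, P.degreeOf x ≤ d) ∧ (∀ s, |((P.coeff s : ℤ) : ℝ)| ≤ T ^ A) ∧
          N q P ≤ T ^ (-B)}.Finite ∧
      ({q : ℚ | lo ≤ q ∧ q ≤ hi ∧ (q.den : ℝ) ≤ T ∧
        ∃ P : MvPolynomial ι₀ ℤ, P ≠ 0 ∧ (∀ x, P.degreeOf x ≤ d) ∧ (∀ s, |((P.coeff s : ℤ) : ℝ)| ≤ T ^ A) ∧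
          N q P ≤ T ^ (-B)}.ncard : ℝ) ≤ C * T ^ β) :
    ∃ B : ℝ, ∀ (k : ℕ) (ι : Type) (v : ι → Fin k → ℝ) (τ θ : ℝ), 0 ≤ τ → 0 ≤ θ → θ < 1 → Fam v τ →
      ∃ E : Set (Fin 2 × Fin k → ℝ), dimH E ≤ ENNReal.ofReal (2 * ((k : ℝ) - 1) + (β + τ) / (1 - θ)) ∧
        (1 ≤ k → 2 * θ < 2 - β - τ → dimH E < ((2 * k : ℕ) : ENNReal) ∧ volume E = 0) ∧
        ∀ α, α ∉ E → ∀ c : ℝ, {i | ¬ ∀ q : ℚ, lo ≤ q → q ≤ hi → NearOne α (v i) (c * ‖v i‖ ^ θ) q →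
          ∀ P : MvPolynomial ι₀ ℤ, P ≠ 0 → (∀ x, P.degreeOf x ≤ d) →
            (∀ s, |((P.coeff s : ℤ) : ℝ)| ≤ (ht q : ℝ) ^ A) → (ht q : ℝ) ^ (-B) < N q P}.Finite := by
  obtain ⟨B0, C0, h0⟩ := hcount
  obtain ⟨B, h⟩ := rel_lin {q : ℚ | lo ≤ q ∧ q ≤ hi} dn (fun q X => (q.den : ℝ) ≤ X)
    (fun q M δ => ∃ P : MvPolynomial ι₀ ℤ, P ≠ 0 ∧ (∀ x, P.degreeOf x ≤ d) ∧ (∀ s, |((P.coeff s : ℤ) : ℝ)| ≤ M) ∧
      N q P ≤ δ)
    (fun q X h => by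
      rw [norm_dn] at h
      exact le_trans (by exact_mod_cast le_max_right q.num.natAbs q.den) h)
    (fun q M δ M' δ' h1 h2 h3 => by
      obtain ⟨P, g1, g2, g3, g4⟩ := h3
      exact ⟨P, g1, g2, fun s => (g3 s).trans h1, g4.trans h2⟩)
    (fun X => by
      refine (finite_rat X).subset fun q hq => ?_
      have hq : ‖dn q‖ ≤ X := hq
      rw [norm_dn] at hq
      refine ⟨le_trans (by exact_mod_cast le_max_right q.num.natAbs q.den) hq, ?_⟩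
      have ha : |(q.num : ℝ)| = (q.num.natAbs : ℝ) := by
        rw [← Int.cast_abs, Int.abs_eq_natAbs]
        simp
      rw [ha]
      exact le_trans (by exact_mod_cast le_max_left q.num.natAbs q.den) hq)
    (fun q => by
      rw [norm_dn]
      exact one_le_ht q) hA (s := β) hβ
    ⟨B0, C0, fun X hX => by
      have he : {t : ℚ | t ∈ {q : ℚ | lo ≤ q ∧ q ≤ hi} ∧ (t.den : ℝ) ≤ X ∧
          ∃ P : MvPolynomial ι₀ ℤ, P ≠ 0 ∧ (∀ x, P.degreeOf x ≤ d) ∧ (∀ s, |((P.coeff s : ℤ) : ℝ)| ≤ X ^ A) ∧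
            N t P ≤ X ^ (-B0)} =
          {q : ℚ | lo ≤ q ∧ q ≤ hi ∧ (q.den : ℝ) ≤ X ∧
            ∃ P : MvPolynomial ι₀ ℤ, P ≠ 0 ∧ (∀ x, P.degreeOf x ≤ d) ∧ (∀ s, |((P.coeff s : ℤ) : ℝ)| ≤ X ^ A) ∧
              N q P ≤ X ^ (-B0)} := by
        ext q
        constructor
        · rintro ⟨⟨h1, h2⟩, h3⟩
          exact ⟨h1, h2, h3⟩
        · rintro ⟨h1, h2, h3⟩
          exact ⟨⟨h1, h2⟩, h3⟩
      rw [he]
      exact h0 X hX⟩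
  refine ⟨B, fun k ι v τ θ hτ hθ0 hθ hv => ?_⟩
  obtain ⟨E, h1, h2, h3⟩ := h k ι v τ θ hτ hθ hv
  refine ⟨E, by simpa using h1, fun hk hlt => h2 (by norm_num) hk (by push_cast; linarith), fun α hα c =>
    (h3 α hα c).subset ?_⟩
  intro i hi'
  simp only [Set.mem_ofPred_eq] at hi' ⊢
  push Not at hi'
  obtain ⟨q, hq1, hq2, hn, P, g1, g2, g3, g4⟩ := hi'
  refine ⟨q, ⟨hq1, hq2⟩, fun l => ?_, P, g1, g2, ?_, ?_⟩
  · fin_cases l
    · exact hn.1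
    · exact hn.2
  · rw [norm_dn]
    exact g3
  · rw [norm_dn]
    exact g4

/-! ## Tuples of fractions -/

/-- the height of a tuple of rational numbers: the maximum of the absolute values of the numerators and denominators -/
def htt {n : ℕ} (q : Fin n → ℚ) : ℕ := univ.sup fun j => ht (q j)

/-- denominators and numerators -/
noncomputable def dnt {n : ℕ} (q : Fin n → ℚ) : Fin (n * 2) → ℝ :=
  fun l => dn (q (finProdFinEquiv.symm l).1) (finProdFinEquiv.symm l).2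

lemma norm_dnt {n : ℕ} (q : Fin n → ℚ) : ‖dnt q‖ = (htt q : ℝ) := by
  apply le_antisymm
  · refine (pi_norm_le_iff_of_nonneg (Nat.cast_nonneg _)).2 fun l => ?_
    have h1 := norm_le_pi_norm (dn (q (finProdFinEquiv.symm l).1)) (finProdFinEquiv.symm l).2
    rw [norm_dn] at h1
    refine h1.trans ?_
    have h2 : ht (q (finProdFinEquiv.symm l).1) ≤ htt q :=
      Finset.le_sup (f := fun j => ht (q j)) (mem_univ (finProdFinEquiv.symm l).1)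
    exact_mod_cast h2
  · have h3 : ∀ j, (ht (q j) : ℝ) ≤ ‖dnt q‖ := by
      intro j
      rw [← norm_dn]
      refine (pi_norm_le_iff_of_nonneg (norm_nonneg _)).2 fun l => ?_
      have h4 := norm_le_pi_norm (dnt q) (finProdFinEquiv (j, l))
      unfold dnt at h4
      rw [Equiv.symm_apply_apply] at h4
      exact h4
    have h5 : htt q ≤ ⌊‖dnt q‖⌋₊ := Finset.sup_le fun j _ => Nat.le_floor (h3 j)
    calc (htt q : ℝ) ≤ (⌊‖dnt q‖⌋₊ : ℝ) := by exact_mod_cast h5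
      _ ≤ ‖dnt q‖ := Nat.floor_le (norm_nonneg _)

/-- The denominators and the numerators of the `q j` differ by at most `δ` from the entries of `α x`. -/
def NearTuple {n k : ℕ} (α : Fin (n * 2) × Fin k → ℝ) (x : Fin k → ℝ) (δ : ℝ) (q : Fin n → ℚ) : Prop :=
  ∀ j, |((q j).den : ℝ) - ∑ l, α (finProdFinEquiv (j, 0), l) * x l| ≤ δ ∧
    |((q j).num : ℝ) - ∑ l, α (finProdFinEquiv (j, 1), l) * x l| ≤ δ

/-- polynomial relations between numbers attached to a tuple of fractions -/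
theorem poly_tuple {n : ℕ} (hn : 1 ≤ n) {ι₀ : Type} (lo hi : Fin n → ℝ)
    (N : (Fin n → ℚ) → MvPolynomial ι₀ ℤ → ℝ) (d : ℕ) {A β : ℝ} (hA : 0 ≤ A) (hβ : 0 < β)
    (hcount : ∃ B C : ℝ, ∀ T : ℝ, 1 ≤ T →
      {q : Fin n → ℚ | (∀ j, lo j ≤ q j ∧ q j ≤ hi j ∧ ((q j).den : ℝ) ≤ T) ∧
        ∃ P : MvPolynomial ι₀ ℤ, P ≠ 0 ∧ (∀ x, P.degreeOf x ≤ d) ∧ (∀ s, |((P.coeff s : ℤ) : ℝ)| ≤ T ^ A) ∧
          N q P ≤ T ^ (-B)}.Finite ∧
      ({q : Fin n → ℚ | (∀ j, lo j ≤ q j ∧ q j ≤ hi j ∧ ((q j).den : ℝ) ≤ T) ∧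
        ∃ P : MvPolynomial ι₀ ℤ, P ≠ 0 ∧ (∀ x, P.degreeOf x ≤ d) ∧ (∀ s, |((P.coeff s : ℤ) : ℝ)| ≤ T ^ A) ∧
          N q P ≤ T ^ (-B)}.ncard : ℝ) ≤ C * T ^ (2 * ((n : ℝ) - 1) + β)) :
    ∃ B : ℝ, ∀ (k : ℕ) (ι : Type) (v : ι → Fin k → ℝ) (τ θ : ℝ), 0 ≤ τ → 0 ≤ θ → θ < 1 → Fam v τ →
      ∃ E : Set (Fin (n * 2) × Fin k → ℝ),
        dimH E ≤ ENNReal.ofReal (2 * n * ((k : ℝ) - 1) + (2 * ((n : ℝ) - 1) + β + τ) / (1 - θ)) ∧
        (1 ≤ k → 2 * n * θ < 2 - β - τ → dimH E < ((n * 2 * k : ℕ) : ENNReal) ∧ volume E = 0) ∧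
        ∀ α, α ∉ E → ∀ c : ℝ, {i | ¬ ∀ q : Fin n → ℚ, (∀ j, lo j ≤ q j ∧ q j ≤ hi j) →
          NearTuple α (v i) (c * ‖v i‖ ^ θ) q →
          ∀ P : MvPolynomial ι₀ ℤ, P ≠ 0 → (∀ x, P.degreeOf x ≤ d) →
            (∀ s, |((P.coeff s : ℤ) : ℝ)| ≤ (htt q : ℝ) ^ A) → (htt q : ℝ) ^ (-B) < N q P}.Finite := by
  have hn' : (1 : ℝ) ≤ n := by exact_mod_cast hn
  obtain ⟨B0, C0, h0⟩ := hcount
  have hj : ∀ (q : Fin n → ℚ) (j : Fin n), (ht (q j) : ℝ) ≤ (htt q : ℝ) := by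
    intro q j
    exact_mod_cast Finset.le_sup (f := fun j => ht (q j)) (mem_univ j)
  have hden : ∀ q : ℚ, (q.den : ℝ) ≤ (ht q : ℝ) := fun q => by exact_mod_cast le_max_right q.num.natAbs q.den
  have hnum : ∀ q : ℚ, |(q.num : ℝ)| ≤ (ht q : ℝ) := fun q => by
    have ha : |(q.num : ℝ)| = (q.num.natAbs : ℝ) := by
      rw [← Int.cast_abs, Int.abs_eq_natAbs]
      simp
    rw [ha]
    exact_mod_cast le_max_left q.num.natAbs q.den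
  obtain ⟨B, h⟩ := rel_lin {q : Fin n → ℚ | ∀ j, lo j ≤ q j ∧ q j ≤ hi j} dnt
    (fun q X => ∀ j, ((q j).den : ℝ) ≤ X)
    (fun q M δ => ∃ P : MvPolynomial ι₀ ℤ, P ≠ 0 ∧ (∀ x, P.degreeOf x ≤ d) ∧ (∀ s, |((P.coeff s : ℤ) : ℝ)| ≤ M) ∧
      N q P ≤ δ)
    (fun q X h j => by
      rw [norm_dnt] at h
      exact ((hden _).trans (hj q j)).trans h)
    (fun q M δ M' δ' h1 h2 h3 => by
      obtain ⟨P, g1, g2, g3, g4⟩ := h3
      exact ⟨P, g1, g2, fun s => (g3 s).trans h1, g4.trans h2⟩)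
    (fun X => by
      refine (Set.Finite.pi' fun j : Fin n => finite_rat X).subset fun q hq j => ?_
      have hq : ‖dnt q‖ ≤ X := hq
      rw [norm_dnt] at hq
      exact ⟨((hden _).trans (hj q j)).trans hq, ((hnum _).trans (hj q j)).trans hq⟩)
    (fun q => by
      rw [norm_dnt]
      exact (one_le_ht (q ⟨0, hn⟩)).trans (hj q _)) hA (s := 2 * ((n : ℝ) - 1) + β) (by linarith)
    ⟨B0, C0, fun X hX => by
      have he : {t : Fin n → ℚ | t ∈ {q : Fin n → ℚ | ∀ j, lo j ≤ q j ∧ q j ≤ hi j} ∧ (∀ j, ((t j).den : ℝ) ≤ X) ∧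
          ∃ P : MvPolynomial ι₀ ℤ, P ≠ 0 ∧ (∀ x, P.degreeOf x ≤ d) ∧ (∀ s, |((P.coeff s : ℤ) : ℝ)| ≤ X ^ A) ∧
            N t P ≤ X ^ (-B0)} =
          {q : Fin n → ℚ | (∀ j, lo j ≤ q j ∧ q j ≤ hi j ∧ ((q j).den : ℝ) ≤ X) ∧
            ∃ P : MvPolynomial ι₀ ℤ, P ≠ 0 ∧ (∀ x, P.degreeOf x ≤ d) ∧ (∀ s, |((P.coeff s : ℤ) : ℝ)| ≤ X ^ A) ∧
              N q P ≤ X ^ (-B0)} := by
        ext q
        constructor
        · rintro ⟨h1, h2, h3⟩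
          exact ⟨fun j => ⟨(h1 j).1, (h1 j).2, h2 j⟩, h3⟩
        · rintro ⟨h1, h3⟩
          exact ⟨fun j => ⟨(h1 j).1, (h1 j).2.1⟩, fun j => (h1 j).2.2, h3⟩
      rw [he]
      exact h0 X hX⟩
  refine ⟨B, fun k ι v τ θ hτ hθ0 hθ hv => ?_⟩
  obtain ⟨E, h1, h2, h3⟩ := h k ι v τ θ hτ hθ hv
  refine ⟨E, h1.trans (le_of_eq ?_), fun hk hlt => h2 (by omega) hk (by push_cast; nlinarith), fun α hα c =>
    (h3 α hα c).subset ?_⟩
  · congr 1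
    push_cast
    ring
  intro i hi'
  simp only [Set.mem_ofPred_eq] at hi' ⊢
  push Not at hi'
  obtain ⟨q, hq, hnear, P, g1, g2, g3, g4⟩ := hi'
  refine ⟨q, hq, fun l => ?_, P, g1, g2, ?_, ?_⟩
  · obtain ⟨⟨j, e⟩, rfl⟩ := finProdFinEquiv.surjective l
    unfold dnt
    rw [Equiv.symm_apply_apply]
    fin_cases e
    · exact (hnear j).1
    · exact (hnear j).2
  · rw [norm_dnt]
    exact g3
  · rw [norm_dnt]
    exact g4

end Run7.h95.LF
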