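import Mathlib

/-!
# From dyadic counts to counts up to `X`
-/

set_option autoImplicit false

open Finset

namespace Run7.h95.LF

open Classical in
/-- from dyadic counts to counts up to `X` -/
theorem count_dyadic (P : Set ℕ) {κ : ℝ} (hκ : 0 < κ) (K₀ : ℕ)
    (h : ∀ K : ℕ, K₀ ≤ K → (((Ioc K (2 * K)).filter (fun t => t ∈ P)).card : ℝ) ≤ (K : ℝ) ^ (1 - κ)) :
    ∃ C : ℝ, 0 ≤ C ∧ ∀ X : ℕ, 1 ≤ X →
      (((Ioc 0 X).filter (fun t => t ∈ P)).card : ℝ) ≤ C * (X : ℝ) ^ (1 - min κ (1 / 2)) := by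
  obtain ⟨s, hs⟩ : ∃ s : ℝ, s = 1 - min κ (1 / 2) := ⟨_, rfl⟩
  have hs1 : 1 / 2 ≤ s := by
    have := min_le_right κ (1 / 2)
    linarith
  have hsκ : 1 - κ ≤ s := by
    have := min_le_left κ (1 / 2)
    linarith
  rw [← hs]
  have h2s : (2 : ℝ) ^ (-s) ≤ 3 / 4 := by
    have h1 : (2 : ℝ) ^ (-s) ≤ (2 : ℝ) ^ (-(1 / 2) : ℝ) :=
      Real.rpow_le_rpow_of_exponent_le (by norm_num) (by linarith)
    have h2 : (2 : ℝ) ^ (-(1 / 2) : ℝ) ≤ 3 / 4 := by
      rw [Real.rpow_neg (by norm_num), ← Real.sqrt_eq_rpow, inv_le_comm₀ (by positivity) (by norm_num)]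
      apply Real.le_sqrt_of_sq_le
      norm_num
    exact h1.trans h2
  refine ⟨2 * K₀ + 8, by positivity, fun X => ?_⟩
  induction X using Nat.strong_induction_on with
  | _ X ih =>
    intro hX
    have hX1 : (1 : ℝ) ≤ X := by exact_mod_cast hX
    have hXs : (1 : ℝ) ≤ (X : ℝ) ^ s := Real.one_le_rpow hX1 (by linarith)
    rcases le_or_gt X (2 * K₀ + 1) with hle | hgt
    · have h3 : (((Ioc 0 X).filter (fun t => t ∈ P)).card : ℝ) ≤ X := by
        have := card_filter_le (Ioc 0 X) (fun t => t ∈ P)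
        rw [Nat.card_Ioc] at this
        exact_mod_cast this
      have h4 : (X : ℝ) ≤ 2 * K₀ + 1 := by exact_mod_cast hle
      nlinarith
    · obtain ⟨K, hK⟩ : ∃ K : ℕ, K = X / 2 := ⟨_, rfl⟩
      have hK1 : K₀ ≤ K := by omega
      have hK2 : 1 ≤ K := by omega
      have hK3 : K < X := by omega
      have hsub : (Ioc 0 X).filter (fun t => t ∈ P) ⊆
          ((Ioc 0 K).filter (fun t => t ∈ P) ∪ (Ioc K (2 * K)).filter (fun t => t ∈ P)) ∪ {X} := by
        intro t ht
        rw [mem_filter, mem_Ioc] at ht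
        rw [mem_union, mem_union, mem_filter, mem_filter, mem_Ioc, mem_Ioc, mem_singleton]
        by_cases h5 : t ≤ K
        · exact Or.inl (Or.inl ⟨⟨ht.1.1, h5⟩, ht.2⟩)
        · by_cases h6 : t ≤ 2 * K
          · exact Or.inl (Or.inr ⟨⟨by omega, h6⟩, ht.2⟩)
          · exact Or.inr (by omega)
      have h7 := (card_le_card hsub).trans ((card_union_le _ _).trans (Nat.add_le_add_right (card_union_le _ _) _))
      rw [card_singleton] at h7
      have h8 := ih K hK3 hK2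
      have h9 := h K hK1
      have hK4 : (1 : ℝ) ≤ K := by exact_mod_cast hK2
      have h10 : (K : ℝ) ^ (1 - κ) ≤ (K : ℝ) ^ s := Real.rpow_le_rpow_of_exponent_le hK4 hsκ
      have h11 : (1 : ℝ) ≤ (K : ℝ) ^ s := Real.one_le_rpow hK4 (by linarith)
      have h12 : (K : ℝ) ^ s ≤ 3 / 4 * (X : ℝ) ^ s := by
        have h13 : (K : ℝ) ≤ X / 2 := by
          have : 2 * K ≤ X := by omega
          have : (2 : ℝ) * K ≤ X := by exact_mod_cast this
          linarith
        calc (K : ℝ) ^ s ≤ ((X : ℝ) / 2) ^ s := Real.rpow_le_rpow (by positivity) h13 (by linarith)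
          _ = 2 ^ (-s) * (X : ℝ) ^ s := by
              rw [Real.div_rpow (by positivity) (by norm_num), Real.rpow_neg (by norm_num)]
              ring
          _ ≤ 3 / 4 * (X : ℝ) ^ s := mul_le_mul_of_nonneg_right h2s (by positivity)
      have h14 : (((Ioc 0 X).filter (fun t => t ∈ P)).card : ℝ) ≤
          (((Ioc 0 K).filter (fun t => t ∈ P)).card : ℝ) + (((Ioc K (2 * K)).filter (fun t => t ∈ P)).card : ℝ) + 1 := by
        exact_mod_cast h7
      have hK0 : (0 : ℝ) ≤ (K₀ : ℝ) := Nat.cast_nonneg _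
      nlinarith

end Run7.h95.LF
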