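import Pool.Agent.N251.LF.Win
import Pool.Agent.N733.TG.K
import Pool.Agent.N375.AV.D

/-!
# Real numbers near the values of multiplicative and of additive functions have integral part outside a thin set
-/

set_option autoImplicit false

open Finset

namespace Run7.h95.LF

open Pool.Agent.N733.TG (LM Expanding keep_windows)
open Pool.Agent.N375.AV (PD comp windows)
open Pool.Agent.N251.LF (count_nat)

lemma expanding_half {G : ℕ → ℝ} {d : ℝ} (hG : Expanding G d) : Expanding (fun v => G v / 2) d where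
  one_le := hG.one_le
  step := by
    obtain ⟨a, ha, h⟩ := hG.step
    exact ⟨a / 2, by positivity, fun v hv => by have := h v hv; linarith⟩
  growth := by
    obtain ⟨C, hC⟩ := hG.growth
    exact ⟨C / 2, fun v hv => by have := hC v hv; linarith⟩

open Classical in
/-- the count of the zero and of the members of `P`, with the heights halved -/
lemma half_count (P : Set ℕ) {s : ℝ} (hs : 0 ≤ s)
    (hP : ∀ ε : ℝ, 0 < ε → ∃ C : ℝ, ∀ X : ℕ, 1 ≤ X →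
      (((Ioc 0 X).filter (fun t => t ∈ P)).card : ℝ) ≤ C * (X : ℝ) ^ (s + ε)) :
    ∀ ε : ℝ, 0 < ε → ∃ C : ℝ, 0 ≤ C ∧ ∀ X : ℝ, 1 ≤ X →
      {t : ℕ | t ∈ {t : ℕ | t = 0 ∨ t ∈ P} ∧ (t : ℝ) / 2 ≤ X}.Finite ∧
        ({t : ℕ | t ∈ {t : ℕ | t = 0 ∨ t ∈ P} ∧ (t : ℝ) / 2 ≤ X}.ncard : ℝ) ≤ C * X ^ (s + ε) := by
  intro ε hε
  obtain ⟨C, hC⟩ := count_nat P hs hP ε hε
  refine ⟨|C| * 2 ^ (s + ε), by positivity, fun X hX => ?_⟩
  obtain ⟨h1, h2⟩ := hC (2 * X) (by linarith)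
  have he : {t : ℕ | t ∈ {t : ℕ | t = 0 ∨ t ∈ P} ∧ (t : ℝ) / 2 ≤ X} =
      {t : ℕ | t ∈ {t : ℕ | t = 0 ∨ t ∈ P} ∧ (t : ℝ) ≤ 2 * X} := by
    ext t
    simp only [Set.mem_ofPred_eq]
    constructor
    · rintro ⟨h3, h4⟩
      exact ⟨h3, by linarith⟩
    · rintro ⟨h3, h4⟩
      exact ⟨h3, by linarith⟩
  rw [he]
  refine ⟨h1, h2.trans ?_⟩
  rw [Real.mul_rpow (by norm_num) (by linarith)]
  have h5 : (0 : ℝ) < 2 ^ (s + ε) * X ^ (s + ε) := by positivity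
  calc C * (2 ^ (s + ε) * X ^ (s + ε)) ≤ |C| * (2 ^ (s + ε) * X ^ (s + ε)) :=
        mul_le_mul_of_nonneg_right (le_abs_self C) h5.le
    _ = |C| * 2 ^ (s + ε) * X ^ (s + ε) := by ring

lemma floor_near {y g w : ℝ} (hw : 1 ≤ w) (hy : 0 < y) (h : |y - g| ≤ w) : |((⌊y⌋₊ : ℕ) : ℝ) / 2 - g / 2| ≤ w := by
  have h1 := Nat.floor_le hy.le
  have h2 := Nat.lt_floor_add_one y
  obtain ⟨h3, h4⟩ := abs_le.1 h
  rw [abs_le]
  constructor <;> linarith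

open Classical in
/-- **Multiplicative functions.** For all `m ≤ N` but `N / (log N) ^ U` all positive real `y` with
`|y - G (f m)| ≤ (f m) ^ κ` are at least one and have integral part outside `P`. -/
theorem real_mult (P : Set ℕ) {f : ℕ → ℕ} (hf : LM f) {G : ℕ → ℝ} {d : ℝ} (hG : Expanding G d) {s κ : ℝ} (hs : 0 ≤ s)
    (hκ : 0 ≤ κ) (h1 : d * s + κ < 1)
    (hP : ∀ ε : ℝ, 0 < ε → ∃ C : ℝ, ∀ X : ℕ, 1 ≤ X →
      (((Ioc 0 X).filter (fun t => t ∈ P)).card : ℝ) ≤ C * (X : ℝ) ^ (s + ε)) (U : ℕ) :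
    ∃ N₀ : ℕ, ∀ N : ℕ, N₀ ≤ N →
      ({m : ℕ | 1 ≤ m ∧ m ≤ N ∧ ¬ ∀ y : ℝ, 0 < y → |y - G (f m)| ≤ (f m : ℝ) ^ κ → 1 ≤ y ∧ ⌊y⌋₊ ∉ P}.ncard : ℝ) ≤
        N / Real.log N ^ U := by
  obtain ⟨N₀, hN₀⟩ := keep_windows {t : ℕ | t = 0 ∨ t ∈ P} (fun t : ℕ => (t : ℝ) / 2) hf (expanding_half hG) hs hκ h1
    (fun ε hε => by
      obtain ⟨C, -, hC⟩ := half_count P hs hP ε hε
      exact ⟨C, hC⟩) U
  refine ⟨N₀, fun N hN => le_trans ?_ (hN₀ N hN)⟩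
  have hfin : {m : ℕ | 1 ≤ m ∧ m ≤ N ∧ ∃ t ∈ {t : ℕ | t = 0 ∨ t ∈ P}, |(t : ℝ) / 2 - G (f m) / 2| ≤ (f m : ℝ) ^ κ}.Finite :=
    (Set.finite_Icc 1 N).subset fun m hm => ⟨hm.1, hm.2.1⟩
  refine Nat.cast_le.2 (Set.ncard_le_ncard ?_ hfin)
  rintro m ⟨h3, h4, h5⟩
  push Not at h5
  obtain ⟨y, hy0, hy, hbad⟩ := h5
  have hf1 : (1 : ℝ) ≤ (f m : ℝ) ^ κ := Real.one_le_rpow (by exact_mod_cast hf.pos m h3) hκ
  refine ⟨h3, h4, ⌊y⌋₊, ?_, floor_near hf1 hy0 hy⟩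
  by_cases h6 : 1 ≤ y
  · exact Or.inr (hbad h6)
  · exact Or.inl (Nat.floor_eq_zero.2 (not_le.1 h6))

open Classical in
/-- **Additive functions and their compositions.** The same for compositions of functions dominated by the largest prime
factor, for all `m ≤ N` but `K N exp (-c (log N) ^ (1 / (r + 1)))`. -/
theorem real_add (P : Set ℕ) (fs : List (ℕ → ℕ)) (hfs : ∀ f ∈ fs, PD f) {G : ℕ → ℝ} {d : ℝ} (hG : Expanding G d)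
    {s κ : ℝ} (hs : 0 ≤ s) (hκ : 0 ≤ κ) (h1 : d * s + κ < 1)
    (hP : ∀ ε : ℝ, 0 < ε → ∃ C : ℝ, ∀ X : ℕ, 1 ≤ X →
      (((Ioc 0 X).filter (fun t => t ∈ P)).card : ℝ) ≤ C * (X : ℝ) ^ (s + ε)) :
    ∃ c K : ℝ, 0 < c ∧ ∀ N : ℕ, 1 ≤ N →
      ({m : ℕ | 1 ≤ m ∧ m ≤ N ∧ ¬ ∀ y : ℝ, 0 < y → |y - G (comp fs m)| ≤ (comp fs m : ℝ) ^ κ →
        1 ≤ y ∧ ⌊y⌋₊ ∉ P}.ncard : ℝ) ≤ K * N * Real.exp (-(c * Real.log N ^ ((1 : ℝ) / (fs.length + 1)))) := by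
  obtain ⟨h, hh⟩ : ∃ h : Option ℕ → ℝ, h = fun t => t.elim (G 0 / 2) (fun n => (n : ℝ) / 2) := ⟨_, rfl⟩
  have hh0 : h none = G 0 / 2 := by rw [hh]; rfl
  have hhs : ∀ n : ℕ, h (some n) = (n : ℝ) / 2 := fun n => by rw [hh]; rfl
  obtain ⟨c, K, hc, hK⟩ := windows {t : Option ℕ | ∀ n : ℕ, t = some n → n = 0 ∨ n ∈ P} h fs hfs (expanding_half hG)
    hs hκ h1 (by
      intro ε hε
      obtain ⟨C, hC0, hC⟩ := half_count P hs hP ε hε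
      refine ⟨C + 1, fun X hX => ?_⟩
      obtain ⟨g1, g2⟩ := hC X hX
      have hsub : {t : Option ℕ | t ∈ {t : Option ℕ | ∀ n : ℕ, t = some n → n = 0 ∨ n ∈ P} ∧ h t ≤ X} ⊆
          insert none (some '' {t : ℕ | t ∈ {t : ℕ | t = 0 ∨ t ∈ P} ∧ (t : ℝ) / 2 ≤ X}) := by
        rintro t ⟨h3, h4⟩
        rcases t with _ | n
        · exact Set.mem_insert _ _
        · refine Set.mem_insert_of_mem _ ⟨n, ⟨h3 n rfl, ?_⟩, rfl⟩
          rw [hhs] at h4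
          exact h4
      have hfin : (insert none (some '' {t : ℕ | t ∈ {t : ℕ | t = 0 ∨ t ∈ P} ∧ (t : ℝ) / 2 ≤ X})).Finite :=
        (g1.image _).insert _
      refine ⟨hfin.subset hsub, ?_⟩
      have k1 := (Set.ncard_le_ncard hsub hfin).trans ((Set.ncard_insert_le _ _).trans
        (Nat.add_le_add_right (Set.ncard_image_le g1) 1))
      have k2 : (1 : ℝ) ≤ X ^ (s + ε) := Real.one_le_rpow hX (by linarith)
      calc (({t : Option ℕ | t ∈ {t : Option ℕ | ∀ n : ℕ, t = some n → n = 0 ∨ n ∈ P} ∧ h t ≤ X}.ncard : ℕ) : ℝ)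
          ≤ ({t : ℕ | t ∈ {t : ℕ | t = 0 ∨ t ∈ P} ∧ (t : ℝ) / 2 ≤ X}.ncard : ℝ) + 1 := by exact_mod_cast k1
        _ ≤ C * X ^ (s + ε) + X ^ (s + ε) := add_le_add g2 k2
        _ = (C + 1) * X ^ (s + ε) := by ring)
  refine ⟨c, K, hc, fun N hN => le_trans ?_ (hK N hN)⟩
  have hfin : {m : ℕ | 1 ≤ m ∧ m ≤ N ∧ ∃ t ∈ {t : Option ℕ | ∀ n : ℕ, t = some n → n = 0 ∨ n ∈ P},
      |h t - G (comp fs m) / 2| ≤ (comp fs m : ℝ) ^ κ}.Finite :=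
    (Set.finite_Icc 1 N).subset fun m hm => ⟨hm.1, hm.2.1⟩
  refine Nat.cast_le.2 (Set.ncard_le_ncard ?_ hfin)
  rintro m ⟨h3, h4, h5⟩
  refine ⟨h3, h4, ?_⟩
  rcases Nat.eq_zero_or_pos (comp fs m) with h0 | h0
  · refine ⟨none, fun n hn => absurd hn (by simp), ?_⟩
    rw [hh0, h0, sub_self, abs_zero]
    positivity
  · push Not at h5
    obtain ⟨y, hy0, hy, hbad⟩ := h5
    have hf1 : (1 : ℝ) ≤ (comp fs m : ℝ) ^ κ := Real.one_le_rpow (by exact_mod_cast h0) hκ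
    refine ⟨some ⌊y⌋₊, fun n hn => ?_, ?_⟩
    · have hn' : ⌊y⌋₊ = n := Option.some.inj hn
      rw [← hn']
      by_cases h6 : 1 ≤ y
      · exact Or.inr (hbad h6)
      · exact Or.inl (Nat.floor_eq_zero.2 (not_le.1 h6))
    · rw [hhs]
      exact floor_near hf1 hy0 hy

end Run7.h95.LF
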