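import Pool.Agent.N251.LF.AeTools
import Pool.Agent.N375.AV.C

/-!
# All integers in long windows around generic linear forms, from counts of the exceptions with the saving `exp (- c (log x) ^ β)`

The windows have length `exp (c' (log ‖v‖) ^ β)`, and the family `v` of vectors only has to be so sparse that the sum of the
`exp (- c (log (1 + ‖v‖)) ^ β)` converges for every `c > 0`.
-/

set_option autoImplicit false

open MeasureTheory Filter Finset

namespace Run7.h95.LF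

open Pool.Agent.N251.LF (ae_core ae_row norm_eq')

/-- the sum of the `exp (- c (log (1 + ‖v i‖)) ^ β)` converges for every `c > 0` -/
def SlowE (β : ℝ) {k : ℕ} {ι : Type} (v : ι → Fin k → ℝ) : Prop :=
  ∀ c : ℝ, 0 < c → Summable fun i => Real.exp (-(c * Real.log (1 + ‖v i‖) ^ β))

/-- the sum of the `exp (- c (log (1 + |u n|)) ^ β)` converges for every `c > 0` -/
def FastE (β : ℝ) (u : ℕ → ℝ) : Prop :=
  ∀ c : ℝ, 0 < c → Summable fun n => Real.exp (-(c * Real.log (1 + |u n|) ^ β))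

lemma SlowE.finite {β : ℝ} (hβ : 0 < β) {k : ℕ} {ι : Type} {v : ι → Fin k → ℝ} (hv : SlowE β v) (X : ℝ) :
    {i | ‖v i‖ ≤ X}.Finite := by
  have hA := hv 1 one_pos
  have h1 := hA.tendsto_cofinite_zero.eventually (gt_mem_nhds (Real.exp_pos (-(1 * Real.log (1 + |X|) ^ β))))
  rw [Filter.eventually_cofinite] at h1
  refine h1.subset ?_
  intro i hi
  have hi' : ‖v i‖ ≤ X := hi
  simp only [Set.mem_ofPred_eq, not_lt]
  apply Real.exp_le_exp.2
  have h2 : Real.log (1 + ‖v i‖) ≤ Real.log (1 + |X|) :=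
    Real.log_le_log (by linarith [norm_nonneg (v i)]) (by linarith [le_abs_self X])
  have h3 : 0 ≤ Real.log (1 + ‖v i‖) := Real.log_nonneg (by linarith [norm_nonneg (v i)])
  have h4 := Real.rpow_le_rpow h3 h2 hβ.le
  linarith

lemma SlowE.countable {β : ℝ} (hβ : 0 < β) {k : ℕ} {ι : Type} {v : ι → Fin k → ℝ} (hv : SlowE β v) : Countable ι := by
  rw [← Set.countable_univ_iff]
  have : (Set.univ : Set ι) = ⋃ n : ℕ, {i | ‖v i‖ ≤ (n : ℝ)} := by
    refine (Set.eq_univ_of_forall fun i => ?_).symm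
    obtain ⟨n, hn⟩ := exists_nat_ge ‖v i‖
    exact Set.mem_iUnion.2 ⟨n, hn⟩
  rw [this]
  exact Set.countable_iUnion fun n => (hv.finite hβ n).countable

/-- the length of the windows -/
lemma win {β c x : ℝ} (hβ : 0 < β) (hβ1 : β ≤ 1) (hc : 0 < c) (hc1 : c ≤ 1) (hx : 4 ≤ x) :
    Real.exp (c / 8 * Real.log (1 + x) ^ β) ≤ x ∧
    Real.exp (c / 8 * Real.log (1 + x) ^ β) * Real.exp (-(c * Real.log x ^ β)) ≤
      Real.exp (-(c / 8 * Real.log (1 + x) ^ β)) ∧
    Real.exp (c / 8 * Real.log (1 + x) ^ β) / x ≤ Real.exp (-(c / 8 * Real.log (1 + x) ^ β)) := by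
  have hx0 : 0 < x := by linarith
  obtain ⟨l, hl⟩ : ∃ l : ℝ, l = Real.log x := ⟨_, rfl⟩
  have hl1 : 1 ≤ l := by
    rw [hl, Real.le_log_iff_exp_le hx0]
    have := Real.exp_one_lt_d9
    linarith
  obtain ⟨s, hs⟩ : ∃ s : ℝ, s = l ^ β := ⟨_, rfl⟩
  obtain ⟨t, ht⟩ : ∃ t : ℝ, t = Real.log (1 + x) ^ β := ⟨_, rfl⟩
  have hs0 : 0 ≤ s := by rw [hs]; positivity
  have hsl : s ≤ l := by
    rw [hs]
    calc l ^ β ≤ l ^ (1 : ℝ) := Real.rpow_le_rpow_of_exponent_le hl1 hβ1
      _ = l := Real.rpow_one _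
  have hlog : Real.log (1 + x) ≤ 2 * l := by
    have h1 : Real.log (1 + x) ≤ Real.log (x ^ 2) := Real.log_le_log (by linarith) (by nlinarith)
    rw [Real.log_pow, ← hl] at h1
    exact_mod_cast h1
  have hlog0 : 0 ≤ Real.log (1 + x) := Real.log_nonneg (by linarith)
  have hts : t ≤ 2 * s := by
    rw [ht, hs]
    calc Real.log (1 + x) ^ β ≤ (2 * l) ^ β := Real.rpow_le_rpow hlog0 hlog hβ.le
      _ = 2 ^ β * l ^ β := Real.mul_rpow (by norm_num) (by linarith)
      _ ≤ 2 * l ^ β := by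
          apply mul_le_mul_of_nonneg_right _ (by positivity)
          calc (2 : ℝ) ^ β ≤ (2 : ℝ) ^ (1 : ℝ) := Real.rpow_le_rpow_of_exponent_le (by norm_num) hβ1
            _ = 2 := Real.rpow_one _
  have hct : c * t ≤ 2 * (c * s) := by nlinarith
  have hcs : c * s ≤ s := by nlinarith
  have hcs0 : 0 ≤ c * s := by positivity
  rw [← ht, ← hl, ← hs]
  refine ⟨?_, ?_, ?_⟩
  · calc Real.exp (c / 8 * t) ≤ Real.exp l := Real.exp_le_exp.2 (by linarith)
      _ = x := by rw [hl, Real.exp_log hx0]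
  · rw [← Real.exp_add]
    apply Real.exp_le_exp.2
    linarith
  · have h1 : x = Real.exp l := by rw [hl, Real.exp_log hx0]
    rw [h1, ← Real.exp_sub]
    apply Real.exp_le_exp.2
    linarith

/-- **All integers in long windows around generic linear forms.** If all `n ≤ x` but `K x exp (- c (log x) ^ β)` have the
property `P`, `0 < β ≤ 1`, `0 < c ≤ 1`, then for almost all `α`, for all but finitely many `i` ALL natural numbers `n` within
`exp ((c / 8) (log (1 + ‖v i‖)) ^ β)` of `∑ α_j v_(i,j)` have the property `P`. -/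
theorem ae_exp {β : ℝ} (hβ : 0 < β) (hβ1 : β ≤ 1) (P : ℕ → Prop) {c K : ℝ} (hc : 0 < c) (hc1 : c ≤ 1) (hK : 0 ≤ K)
    (hP : ∀ x : ℕ, 1 ≤ x → ({n : ℕ | 1 ≤ n ∧ n ≤ x ∧ ¬ P n}.ncard : ℝ) ≤ K * x * Real.exp (-(c * Real.log x ^ β)))
    {ι : Type} {k : ℕ} (v : ι → Fin k → ℝ) (hv : SlowE β v) :
    ∀ᵐ α : Fin k → ℝ,
      {i | ¬ ∀ n : ℕ, |(n : ℝ) - ∑ j, α j * v i j| ≤ Real.exp (c / 8 * Real.log (1 + ‖v i‖) ^ β) → P n}.Finite := by
  classical
  have : Countable ι := hv.countable hβ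
  refine ae_row (fun α : Fin k → ℝ =>
      {i | ¬ ∀ n : ℕ, |(n : ℝ) - ∑ j, α j * v i j| ≤ Real.exp (c / 8 * Real.log (1 + ‖v i‖) ^ β) → P n}.Finite) ?_
  have key : ∀ (j0 : Fin k) (R : ℕ), ∀ᵐ α : Fin 1 × Fin k → ℝ, (∀ p, |α p| ≤ R) →
      {i | (∀ j, |v i j| ≤ |v i j0|) ∧ ∃ n : ℕ, ¬ P n ∧
        |(n : ℝ) - ∑ j, α (0, j) * v i j| ≤ Real.exp (c / 8 * Real.log (1 + ‖v i‖) ^ β)}.Finite := by
    intro j0 R
    obtain ⟨M, hM⟩ : ∃ M : ℕ, M = k * R + 1 := ⟨_, rfl⟩
    have hM1 : (1 : ℝ) ≤ M := by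
      rw [hM]; push_cast
      have : (0 : ℝ) ≤ (k : ℝ) * R := by positivity
      linarith
    set I : Type := {i : ι // (∀ j, |v i j| ≤ |v i j0|) ∧ 4 ≤ ‖v i‖} with hI
    have hIn : ∀ i : I, ‖v i.1‖ = |v i.1 j0| := fun i => norm_eq' i.2.1
    obtain ⟨F, hF⟩ : ∃ F : I → Finset ℕ, F = fun i : I => (range (M * ⌈‖v i.1‖⌉₊ + 1)).filter (fun n => ¬ P n) := ⟨_, rfl⟩
    have hFc : ∀ i : I, ((F i).card : ℝ) ≤ 1 + 2 * K * M * ‖v i.1‖ * Real.exp (-(c * Real.log ‖v i.1‖ ^ β)) := by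
      intro i
      obtain ⟨x, hx⟩ : ∃ x : ℝ, x = ‖v i.1‖ := ⟨_, rfl⟩
      have hx4 : 4 ≤ x := by rw [hx]; exact i.2.2
      obtain ⟨X, hX⟩ : ∃ X : ℕ, X = M * ⌈x⌉₊ := ⟨_, rfl⟩
      have hcx : x ≤ (⌈x⌉₊ : ℝ) := Nat.le_ceil x
      have hcx2 : (⌈x⌉₊ : ℝ) < x + 1 := Nat.ceil_lt_add_one (by linarith)
      have hXx : x ≤ (X : ℝ) := by
        rw [hX]; push_cast
        nlinarith
      have hX2 : (X : ℝ) ≤ 2 * M * x := by
        rw [hX]; push_cast
        nlinarith
      have hX1 : 1 ≤ X := by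
        have : (0 : ℝ) < X := by linarith
        exact_mod_cast this
      have h1 := hP X hX1
      have hfin : {n : ℕ | 1 ≤ n ∧ n ≤ X ∧ ¬ P n}.Finite := (Set.finite_Icc 1 X).subset fun n hn => ⟨hn.1, hn.2.1⟩
      have hsub : ((F i : Finset ℕ) : Set ℕ) ⊆ insert 0 {n : ℕ | 1 ≤ n ∧ n ≤ X ∧ ¬ P n} := by
        intro n hn
        rw [hF] at hn
        simp only [coe_filter, mem_range, Set.mem_ofPred_eq] at hn
        rw [← hx, ← hX] at hn
        rcases Nat.eq_zero_or_pos n with h0 | h0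
        · exact Or.inl h0
        · exact Or.inr ⟨h0, by omega, hn.2⟩
      have h2 := (Set.ncard_le_ncard hsub (hfin.insert 0)).trans (Set.ncard_insert_le _ _)
      rw [Set.ncard_coe_finset] at h2
      have h3 : ((F i).card : ℝ) ≤ ({n : ℕ | 1 ≤ n ∧ n ≤ X ∧ ¬ P n}.ncard : ℝ) + 1 := by exact_mod_cast h2
      have h4 : Real.exp (-(c * Real.log X ^ β)) ≤ Real.exp (-(c * Real.log x ^ β)) := by
        apply Real.exp_le_exp.2
        have h5 : Real.log x ^ β ≤ Real.log X ^ β :=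
          Real.rpow_le_rpow (Real.log_nonneg (by linarith)) (Real.log_le_log (by linarith) hXx) hβ.le
        nlinarith
      rw [← hx]
      have h6 : K * X * Real.exp (-(c * Real.log X ^ β)) ≤ K * (2 * M * x) * Real.exp (-(c * Real.log x ^ β)) := by
        apply mul_le_mul _ h4 (Real.exp_pos _).le (by positivity)
        exact mul_le_mul_of_nonneg_left hX2 hK
      linarith
    have hcore := ae_core (m := 1) j0 (fun i : I => v i.1) (fun i => by
        have h1 := i.2.2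
        rw [hIn] at h1
        have : 0 < |v i.1 j0| := by linarith
        exact abs_pos.1 this) F (fun n _ => (n : ℝ))
      (fun i => Real.exp (c / 8 * Real.log (1 + ‖v i.1‖) ^ β)) (fun i => (Real.exp_pos _).le) (by
        have hA' : Summable fun i : I => (1 + 2 * K * M) * Real.exp (-(c / 8 * Real.log (1 + ‖v i.1‖) ^ β)) :=
          ((hv (c / 8) (by positivity)).comp_injective Subtype.val_injective).mul_left _
        refine Summable.of_nonneg_of_le (fun i => by positivity) (fun i => ?_) hA'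
        have h4 := i.2.2
        have h5 := hFc i
        rw [← hIn i, pow_one]
        obtain ⟨x, hx⟩ : ∃ x : ℝ, x = ‖v i.1‖ := ⟨_, rfl⟩
        rw [← hx] at h4 h5 ⊢
        have hx0 : 0 < x := by linarith
        obtain ⟨w1, w2, w3⟩ := win hβ hβ1 hc hc1 h4
        obtain ⟨W, hW⟩ : ∃ W : ℝ, W = Real.exp (c / 8 * Real.log (1 + x) ^ β) := ⟨_, rfl⟩
        obtain ⟨E, hE⟩ : ∃ E : ℝ, E = Real.exp (-(c / 8 * Real.log (1 + x) ^ β)) := ⟨_, rfl⟩
        obtain ⟨D, hD⟩ : ∃ D : ℝ, D = Real.exp (-(c * Real.log x ^ β)) := ⟨_, rfl⟩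
        rw [← hW, ← hE] at w2 w3
        rw [← hD] at w2 h5
        rw [← hW, ← hE]
        have hW0 : 0 < W := by rw [hW]; exact Real.exp_pos _
        calc ((F i).card : ℝ) * (W / x) ≤ (1 + 2 * K * M * x * D) * (W / x) :=
              mul_le_mul_of_nonneg_right h5 (by positivity)
          _ = W / x + 2 * K * M * (W * D) := by field_simp
          _ ≤ E + 2 * K * M * E := by
              have : 2 * K * M * (W * D) ≤ 2 * K * M * E := mul_le_mul_of_nonneg_left w2 (by positivity)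
              linarith
          _ = (1 + 2 * K * M) * E := by ring) (R : ℝ)
    filter_upwards [hcore] with α hα hR
    have h1 := hα hR
    refine ((h1.image Subtype.val).union (hv.finite hβ 4)).subset ?_
    rintro i ⟨h2, n, hn, h3⟩
    rcases le_total ‖v i‖ 4 with h4 | h4
    · right
      exact h4
    · left
      refine ⟨⟨i, h2, h4⟩, ⟨n, ?_, fun l => ?_⟩, rfl⟩
      · rw [hF]
        simp only [mem_filter, mem_range]
        refine ⟨?_, hn⟩
        have hnorm := norm_eq' h2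
        obtain ⟨w1, -, -⟩ := win hβ hβ1 hc hc1 h4
        have h7 : |∑ j, α (0, j) * v i j| ≤ (k : ℝ) * R * ‖v i‖ := by
          refine (Finset.abs_sum_le_sum_abs _ _).trans ?_
          have : ∀ j ∈ (Finset.univ : Finset (Fin k)), |α (0, j) * v i j| ≤ R * ‖v i‖ := by
            intro j _
            rw [abs_mul, hnorm]
            exact mul_le_mul (hR (0, j)) (h2 j) (abs_nonneg _) (Nat.cast_nonneg R)
          refine (Finset.sum_le_sum this).trans (le_of_eq ?_)
          rw [Finset.sum_const, Finset.card_univ, Fintype.card_fin, nsmul_eq_mul]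
          ring
        have h8 := (abs_le.1 h3).2
        have h9 := (abs_le.1 h7).2
        have h10 : (n : ℝ) ≤ M * ‖v i‖ := by
          rw [hM]; push_cast
          linarith
        have h11 : (n : ℝ) ≤ ((M * ⌈‖v i‖⌉₊ : ℕ) : ℝ) := by
          push_cast
          exact h10.trans (mul_le_mul_of_nonneg_left (Nat.le_ceil _) (by linarith))
        have h12 : n ≤ M * ⌈‖v i‖⌉₊ := by exact_mod_cast h11
        omega
      · have : l = 0 := Subsingleton.elim _ _
        rw [this, abs_sub_comm]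
        exact h3
  have key2 : ∀ᵐ α : Fin 1 × Fin k → ℝ, ∀ (j0 : Fin k) (R : ℕ), (∀ p, |α p| ≤ R) →
      {i | (∀ j, |v i j| ≤ |v i j0|) ∧ ∃ n : ℕ, ¬ P n ∧
        |(n : ℝ) - ∑ j, α (0, j) * v i j| ≤ Real.exp (c / 8 * Real.log (1 + ‖v i‖) ^ β)}.Finite := by
    rw [ae_all_iff]; intro j0
    rw [ae_all_iff]; intro R
    exact key j0 R
  filter_upwards [key2] with α hα
  obtain ⟨R, hR⟩ := exists_nat_ge ‖α‖
  rcases isEmpty_or_nonempty (Fin k) with hk | hk
  · refine (hv.finite hβ 0).subset fun i _ => ?_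
    exact (pi_norm_le_iff_of_nonneg le_rfl).2 fun j => (hk.false j).elim
  · refine (Set.finite_iUnion fun j0 : Fin k => hα j0 R fun p => (norm_le_pi_norm α p).trans hR).subset ?_
    intro i hi
    simp only [Set.mem_ofPred_eq] at hi
    push Not at hi
    obtain ⟨n, h1, h2⟩ := hi
    obtain ⟨j0, hj0⟩ := Finite.exists_max (fun j => |v i j|)
    rw [Set.mem_iUnion]
    exact ⟨j0, hj0, n, h2, h1⟩

/-- the same, from the existence of the constants; the constant in the length of the windows does not depend on the family -/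
theorem ae_nat_exp {β : ℝ} (hβ : 0 < β) (hβ1 : β ≤ 1) (P : ℕ → Prop)
    (h : ∃ c K : ℝ, 0 < c ∧ ∀ x : ℕ, 1 ≤ x →
      ({n : ℕ | 1 ≤ n ∧ n ≤ x ∧ ¬ P n}.ncard : ℝ) ≤ K * x * Real.exp (-(c * Real.log x ^ β))) :
    ∃ c : ℝ, 0 < c ∧ ∀ (k : ℕ) (ι : Type) (v : ι → Fin k → ℝ), SlowE β v →
      ∀ᵐ α : Fin k → ℝ,
        {i | ¬ ∀ n : ℕ, |(n : ℝ) - ∑ j, α j * v i j| ≤ Real.exp (c * Real.log (1 + ‖v i‖) ^ β) → P n}.Finite := by
  obtain ⟨c, K, hc, hK⟩ := h
  refine ⟨min c 1 / 8, div_pos (lt_min hc one_pos) (by norm_num), fun k ι v hv => ?_⟩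
  refine ae_exp hβ hβ1 P (c := min c 1) (K := |K|) (lt_min hc one_pos) (min_le_right _ _) (abs_nonneg K) ?_ v hv
  intro x hx
  refine (hK x hx).trans ?_
  have h1 : Real.exp (-(c * Real.log x ^ β)) ≤ Real.exp (-(min c 1 * Real.log x ^ β)) := by
    apply Real.exp_le_exp.2
    have h2 : 0 ≤ Real.log x ^ β := Real.rpow_nonneg (Real.log_natCast_nonneg x) _
    have := mul_le_mul_of_nonneg_right (min_le_left c 1) h2
    linarith
  have h2 : K * x ≤ |K| * x := mul_le_mul_of_nonneg_right (le_abs_self K) (Nat.cast_nonneg x)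
  exact mul_le_mul h2 h1 (Real.exp_pos _).le (by positivity)

/-! ## Examples -/

open Pool.Agent.N251.LF (prod_summable)

lemma slowE_prod {β : ℝ} (hβ : 0 < β) {k : ℕ} (u : Fin k → ℕ → ℝ) (hu : ∀ j, FastE β (u j)) :
    SlowE β (fun (n : Fin k → ℕ) (j : Fin k) => u j (n j)) := by
  intro c hc
  rcases Nat.eq_zero_or_pos k with hk | hk
  · subst hk
    exact (hasSum_fintype _).summable
  · have hk0 : (0 : ℝ) < k := by exact_mod_cast hk
    have h1 : Summable fun n : Fin k → ℕ => ∏ j, Real.exp (-(c / k * Real.log (1 + |u j (n j)|) ^ β)) :=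
      prod_summable (fun j n => Real.exp (-(c / k * Real.log (1 + |u j n|) ^ β))) (fun j n => (Real.exp_pos _).le)
        (fun j => hu j (c / k) (by positivity))
    refine Summable.of_nonneg_of_le (fun n => (Real.exp_pos _).le) (fun n => ?_) h1
    rw [← Real.exp_sum]
    apply Real.exp_le_exp.2
    rw [Finset.sum_neg_distrib]
    apply neg_le_neg
    have h2 : ∀ j ∈ (Finset.univ : Finset (Fin k)), c / k * Real.log (1 + |u j (n j)|) ^ β ≤
        c / k * Real.log (1 + ‖fun j => u j (n j)‖) ^ β := by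
      intro j _
      apply mul_le_mul_of_nonneg_left _ (by positivity)
      apply Real.rpow_le_rpow (Real.log_nonneg (by linarith [abs_nonneg (u j (n j))])) _ hβ.le
      apply Real.log_le_log (by linarith [abs_nonneg (u j (n j))])
      have := norm_le_pi_norm (fun j => u j (n j)) j
      rw [Real.norm_eq_abs] at this
      linarith
    refine (Finset.sum_le_sum h2).trans (le_of_eq ?_)
    rw [Finset.sum_const, Finset.card_univ, Fintype.card_fin, nsmul_eq_mul]
    field_simp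

/-- if `log (1 + |u n|) ≥ c₁ (log (1 + n)) ^ a` with `a β > 1`, then `u` grows fast enough -/
lemma fastE_of_log {β a c₁ : ℝ} (hβ : 0 < β) (hab : 1 < a * β) (hc₁ : 0 < c₁) (u : ℕ → ℝ)
    (hu : ∀ n : ℕ, c₁ * Real.log (1 + n) ^ a ≤ Real.log (1 + |u n|)) : FastE β u := by
  intro c hc
  -- `c (log (1 + |u n|)) ^ β ≥ 2 log (1 + n)` for large `n`
  have h0 : Summable fun n : ℕ => 1 / ((n : ℝ) + 1) ^ 2 := by
    have := (summable_nat_add_iff 1).2 (Real.summable_one_div_nat_pow.2 (by norm_num : 1 < 2))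
    simpa using this
  obtain ⟨D, hD⟩ : ∃ D : ℝ, D = c * c₁ ^ β := ⟨_, rfl⟩
  have hD0 : 0 < D := by rw [hD]; positivity
  have hlim : Tendsto (fun n : ℕ => Real.log (1 + (n : ℝ))) atTop atTop :=
    Real.tendsto_log_atTop.comp (tendsto_atTop_add_const_left _ 1 tendsto_natCast_atTop_atTop)
  have hlim2 : Tendsto (fun n : ℕ => D * Real.log (1 + (n : ℝ)) ^ (a * β - 1)) atTop atTop :=
    ((tendsto_rpow_atTop (by linarith)).comp hlim).const_mul_atTop hD0
  have hev : ∀ᶠ n : ℕ in atTop, Real.exp (-(c * Real.log (1 + |u n|) ^ β)) ≤ 1 / ((n : ℝ) + 1) ^ 2 := by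
    filter_upwards [hlim2.eventually_ge_atTop 2, hlim.eventually_gt_atTop 0] with n h1 h2
    have h3 : (0 : ℝ) < 1 + n := by positivity
    have h4 : D * Real.log (1 + (n : ℝ)) ^ (a * β) ≤ c * Real.log (1 + |u n|) ^ β := by
      have h5 : (c₁ * Real.log (1 + (n : ℝ)) ^ a) ^ β ≤ Real.log (1 + |u n|) ^ β :=
        Real.rpow_le_rpow (by positivity) (hu n) hβ.le
      rw [Real.mul_rpow hc₁.le (by positivity), ← Real.rpow_mul h2.le] at h5
      have h6 := mul_le_mul_of_nonneg_left h5 hc.le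
      rw [hD, mul_assoc]
      exact h6
    have h5 : 2 * Real.log (1 + (n : ℝ)) ≤ D * Real.log (1 + (n : ℝ)) ^ (a * β) := by
      have h6 : Real.log (1 + (n : ℝ)) ^ (a * β) = Real.log (1 + (n : ℝ)) ^ (a * β - 1) * Real.log (1 + (n : ℝ)) := by
        rw [Real.rpow_sub_one h2.ne']
        field_simp
      rw [h6, ← mul_assoc]
      exact mul_le_mul_of_nonneg_right h1 h2.le
    have h6 : 1 / ((n : ℝ) + 1) ^ 2 = Real.exp (-(2 * Real.log (1 + (n : ℝ)))) := by
      rw [Real.exp_neg, show 2 * Real.log (1 + (n : ℝ)) = Real.log ((1 + (n : ℝ)) ^ 2) by rw [Real.log_pow]; norm_cast,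
        Real.exp_log (by positivity), one_div, add_comm (n : ℝ) 1]
    rw [h6]
    apply Real.exp_le_exp.2
    linarith
  obtain ⟨N, hN⟩ := eventually_atTop.1 hev
  refine (summable_nat_add_iff N).1 ?_
  refine Summable.of_nonneg_of_le (fun n => (Real.exp_pos _).le) (fun n => hN (n + N) (by omega)) ?_
  exact (summable_nat_add_iff N).2 h0

/-- the sequences `exp ((log (1 + n)) ^ a)` with `a > 1 / β` grow fast enough -/
lemma fastE_explog {β a : ℝ} (hβ : 0 < β) (hab : 1 < a * β) : FastE β (fun n => Real.exp (Real.log (1 + n) ^ a)) := by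
  refine fastE_of_log hβ hab one_pos _ fun n => ?_
  rw [one_mul, abs_of_pos (Real.exp_pos _)]
  calc Real.log (1 + n) ^ a = Real.log (Real.exp (Real.log (1 + n) ^ a)) := (Real.log_exp _).symm
    _ ≤ _ := Real.log_le_log (Real.exp_pos _) (by linarith)

/-- the sequences `b ^ n`, `b > 1`, and `exp (n ^ a)`, `a > 0`, grow fast enough (`Fast`: `log (1 + |u n|) ≥ c n ^ a`) -/
lemma fastE_fast {β : ℝ} (hβ : 0 < β) {u : ℕ → ℝ} (hu : Pool.Agent.N251.LF.Fast u) : FastE β u := by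
  obtain ⟨a, c₂, ha, hc₂, h⟩ := hu
  intro c hc
  have h0 : Summable fun n : ℕ => 1 / ((n : ℝ) + 1) ^ 2 := by
    have := (summable_nat_add_iff 1).2 (Real.summable_one_div_nat_pow.2 (by norm_num : 1 < 2))
    simpa using this
  obtain ⟨c₃, hc₃⟩ : ∃ c₃ : ℝ, c₃ = c / 2 ^ β * c₂ ^ β := ⟨_, rfl⟩
  have hc₃0 : 0 < c₃ := by rw [hc₃]; positivity
  obtain ⟨K, hK, hab⟩ := Pool.Agent.N375.AV.absorb 2 (b := a * β) (c := c₃) (by positivity) hc₃0
  refine Summable.of_nonneg_of_le (fun n => (Real.exp_pos _).le) (fun n => ?_) (h0.mul_left (Real.exp c * K))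
  have hn0 : (0 : ℝ) ≤ (n : ℝ) + 1 := by positivity
  have h1 := hab ((n : ℝ) + 1) hn0
  obtain ⟨y, hy⟩ : ∃ y : ℝ, y = Real.log (1 + |u n|) := ⟨_, rfl⟩
  have hy0 : 0 ≤ y := by rw [hy]; exact Real.log_nonneg (by linarith [abs_nonneg (u n)])
  have hn := h n
  rw [← hy] at hn ⊢
  have h2 : (1 + y) ^ β ≤ 2 ^ β * (1 + y ^ β) := by
    have hyβ : 0 ≤ y ^ β := by positivity
    have h2β : (0 : ℝ) < 2 ^ β := by positivity
    rcases le_total y 1 with h3 | h3
    · calc (1 + y) ^ β ≤ 2 ^ β := Real.rpow_le_rpow (by linarith) (by linarith) hβ.le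
        _ ≤ 2 ^ β * (1 + y ^ β) := by nlinarith
    · calc (1 + y) ^ β ≤ (2 * y) ^ β := Real.rpow_le_rpow (by linarith) (by linarith) hβ.le
        _ = 2 ^ β * y ^ β := Real.mul_rpow (by norm_num) hy0
        _ ≤ 2 ^ β * (1 + y ^ β) := by nlinarith
  have h3 : c₃ * ((n : ℝ) + 1) ^ (a * β) ≤ c + c * y ^ β := by
    have h5 : (c₂ * ((n : ℝ) + 1) ^ a) ^ β ≤ (1 + y) ^ β := Real.rpow_le_rpow (by positivity) hn hβ.le
    rw [Real.mul_rpow hc₂.le (by positivity), ← Real.rpow_mul hn0] at h5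
    have h6 : c / 2 ^ β * (c₂ ^ β * ((n : ℝ) + 1) ^ (a * β)) ≤ c / 2 ^ β * (2 ^ β * (1 + y ^ β)) :=
      mul_le_mul_of_nonneg_left (h5.trans h2) (by positivity)
    have h7 : c / 2 ^ β * (2 ^ β * (1 + y ^ β)) = c + c * y ^ β := by
      field_simp
    rw [hc₃, mul_assoc]
    linarith
  have h4 : Real.exp (-(c * y ^ β)) ≤ Real.exp c * Real.exp (-(c₃ * ((n : ℝ) + 1) ^ (a * β))) := by
    rw [← Real.exp_add]
    apply Real.exp_le_exp.2
    linarith
  refine h4.trans ?_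
  rw [mul_assoc]
  apply mul_le_mul_of_nonneg_left _ (Real.exp_pos c).le
  rw [Real.exp_neg, mul_one_div, inv_eq_one_div, div_le_div_iff₀ (Real.exp_pos _) (by positivity), one_mul]
  refine le_trans ?_ h1
  exact pow_le_pow_left₀ hn0 (by linarith) 2

/-- the examples of families of vectors -/
theorem slowE_examples {β : ℝ} (hβ : 0 < β) :
    (∀ (k : ℕ) (u : Fin k → ℕ → ℝ), (∀ j, FastE β (u j)) → SlowE β (fun (n : Fin k → ℕ) (j : Fin k) => u j (n j))) ∧
    (∀ a : ℝ, 1 < a * β → FastE β (fun n => Real.exp (Real.log (1 + n) ^ a))) ∧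
    (∀ a : ℝ, 0 < a → FastE β (fun n => Real.exp ((n : ℝ) ^ a))) ∧
    ∀ b : ℝ, 1 < b → FastE β (fun n => b ^ n) :=
  ⟨fun _ u hu => slowE_prod hβ u hu, fun _ ha => fastE_explog hβ ha,
    fun _ ha => fastE_fast hβ (Pool.Agent.N251.LF.fast_exp ha), fun _ hb => fastE_fast hβ (Pool.Agent.N251.LF.fast_pow hb)⟩

end Run7.h95.LF
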