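import Mathlib

/-!
# Sets of small Hausdorff dimension are null sets
-/

set_option autoImplicit false

open MeasureTheory

namespace Run7.h95.LF

/-- a set of vectors of dimension at most `k - 1 + x`, `x < 1` -/
theorem null_lin {k : ℕ} {E : Set (Fin k → ℝ)} {x : ℝ} (hE : dimH E ≤ ENNReal.ofReal ((k : ℝ) - 1 + x)) (hk : 1 ≤ k)
    (hx : x < 1) : dimH E < (k : ENNReal) ∧ volume E = 0 := by
  have hkr : (1 : ℝ) ≤ k := by exact_mod_cast hk
  have h2 : dimH E < (k : ENNReal) := by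
    refine lt_of_le_of_lt hE ?_
    rw [← ENNReal.ofReal_natCast, ENNReal.ofReal_lt_ofReal_iff (by linarith)]
    linarith
  refine ⟨h2, ?_⟩
  have h3 : dimH E < ((k : NNReal) : ENNReal) := by simpa using h2
  have h4 := hausdorffMeasure_of_dimH_lt h3
  have h5 : (Measure.hausdorffMeasure ((Fintype.card (Fin k) : ℕ) : ℝ) : Measure (Fin k → ℝ)) = volume :=
    hausdorffMeasure_pi_real
  rw [← h5, Fintype.card_fin]
  simpa using h4

/-- a set of matrices of dimension at most `m (k - 1) + x`, `x < m` -/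
theorem null_mat {m k : ℕ} {E : Set (Fin m × Fin k → ℝ)} {x : ℝ}
    (hE : dimH E ≤ ENNReal.ofReal ((m : ℝ) * ((k : ℝ) - 1) + x)) (hm : 1 ≤ m) (hk : 1 ≤ k) (hx : x < m) :
    dimH E < ((m * k : ℕ) : ENNReal) ∧ volume E = 0 := by
  have hkr : (1 : ℝ) ≤ k := by exact_mod_cast hk
  have hmr : (1 : ℝ) ≤ m := by exact_mod_cast hm
  have h2 : dimH E < ((m * k : ℕ) : ENNReal) := by
    refine lt_of_le_of_lt hE ?_
    rw [← ENNReal.ofReal_natCast, ENNReal.ofReal_lt_ofReal_iff (by push_cast; nlinarith)]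
    push_cast
    nlinarith
  refine ⟨h2, ?_⟩
  have h3 : dimH E < (((m * k : ℕ) : NNReal) : ENNReal) := by simpa using h2
  have h4 := hausdorffMeasure_of_dimH_lt h3
  have h5 : (Measure.hausdorffMeasure ((Fintype.card (Fin m × Fin k) : ℕ) : ℝ) : Measure (Fin m × Fin k → ℝ)) = volume :=
    hausdorffMeasure_pi_real
  have h6 : Fintype.card (Fin m × Fin k) = m * k := by simp
  rw [← h5, h6]
  simpa using h4

end Run7.h95.LF
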