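import Pool.Agent.N251.LF.Tuples
import Pool.Agent.Run7.h95.LF.Null

/-!
# Windows around the values of generic linear forms, with the measure statement
-/

set_option autoImplicit false

open MeasureTheory
open Pool.Agent.N251.LF (Fam linear_windows linear_win_nat linear_good_nat tuple_windows)

namespace Run7.h95.LF

lemma quot_lt_one {s τ θ : ℝ} (hθ : θ < 1) (h : θ < 1 - s - τ) : (s + τ) / (1 - θ) < 1 := by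
  rw [div_lt_one (by linarith)]
  linarith

/-- the windows of the starting library, with the measure statement -/
theorem full {T ι : Type} {k : ℕ} (S : Set T) (h : T → ℝ) (v : ι → Fin k → ℝ) {s τ θ : ℝ} (hs : 0 ≤ s)
    (hτ : 0 ≤ τ) (hθ : θ < 1) (hv : Fam v τ)
    (hS : ∀ ε : ℝ, 0 < ε → ∃ C : ℝ, ∀ X : ℝ, 1 ≤ X →
      {t | t ∈ S ∧ h t ≤ X}.Finite ∧ ({t | t ∈ S ∧ h t ≤ X}.ncard : ℝ) ≤ C * X ^ (s + ε)) :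
    ∃ E : Set (Fin k → ℝ), dimH E ≤ ENNReal.ofReal ((k : ℝ) - 1 + (s + τ) / (1 - θ)) ∧
      (1 ≤ k → θ < 1 - s - τ → dimH E < (k : ENNReal) ∧ volume E = 0) ∧
      ∀ α, α ∉ E → ∀ c : ℝ, {i | ∃ t ∈ S, |h t - ∑ j, α j * v i j| ≤ c * ‖v i‖ ^ θ}.Finite := by
  obtain ⟨E, h1, h2⟩ := linear_windows S h v hs hτ hθ hv hS
  exact ⟨E, h1, fun hk hlt => null_lin h1 hk (quot_lt_one hθ hlt), h2⟩

/-- the same for countably many sets of objects -/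
theorem full_ctb {J T ι : Type} [Countable J] {k : ℕ} (S : J → Set T) (h : T → ℝ) (v : ι → Fin k → ℝ) {s τ θ : ℝ}
    (hs : 0 ≤ s) (hτ : 0 ≤ τ) (hθ : θ < 1) (hv : Fam v τ)
    (hS : ∀ n : J, ∀ ε : ℝ, 0 < ε → ∃ C : ℝ, ∀ X : ℝ, 1 ≤ X →
      {t | t ∈ S n ∧ h t ≤ X}.Finite ∧ ({t | t ∈ S n ∧ h t ≤ X}.ncard : ℝ) ≤ C * X ^ (s + ε)) :
    ∃ E : Set (Fin k → ℝ), dimH E ≤ ENNReal.ofReal ((k : ℝ) - 1 + (s + τ) / (1 - θ)) ∧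
      (1 ≤ k → θ < 1 - s - τ → dimH E < (k : ENNReal) ∧ volume E = 0) ∧
      ∀ α, α ∉ E → ∀ (n : J) (c : ℝ), {i | ∃ t ∈ S n, |h t - ∑ j, α j * v i j| ≤ c * ‖v i‖ ^ θ}.Finite := by
  choose E h1 h2 using fun n => linear_windows (S n) h v hs hτ hθ hv (hS n)
  have hU : dimH (⋃ n, E n) ≤ ENNReal.ofReal ((k : ℝ) - 1 + (s + τ) / (1 - θ)) := by
    rw [dimH_iUnion]
    exact iSup_le h1
  exact ⟨⋃ n, E n, hU, fun hk hlt => null_lin hU hk (quot_lt_one hθ hlt),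
    fun α hα n => h2 n α (fun h => hα (Set.mem_iUnion.2 ⟨n, h⟩))⟩

open scoped Classical in
/-- the same for sets of positive integers -/
theorem full_nat {ι : Type} {k : ℕ} (P : Set ℕ) (v : ι → Fin k → ℝ) {s τ θ : ℝ} (hs : 0 ≤ s)
    (hτ : 0 ≤ τ) (hθ : θ < 1) (hv : Fam v τ)
    (hP : ∀ ε : ℝ, 0 < ε → ∃ C : ℝ, ∀ X : ℕ, 1 ≤ X →
      (((Finset.Ioc 0 X).filter (fun t => t ∈ P)).card : ℝ) ≤ C * (X : ℝ) ^ (s + ε)) :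
    ∃ E : Set (Fin k → ℝ), dimH E ≤ ENNReal.ofReal ((k : ℝ) - 1 + (s + τ) / (1 - θ)) ∧
      (1 ≤ k → θ < 1 - s - τ → dimH E < (k : ENNReal) ∧ volume E = 0) ∧
      ∀ α, α ∉ E → ∀ c : ℝ,
        {i | ∃ n : ℕ, (n = 0 ∨ n ∈ P) ∧ |(n : ℝ) - ∑ j, α j * v i j| ≤ c * ‖v i‖ ^ θ}.Finite := by
  obtain ⟨E, h1, h2⟩ := linear_win_nat P v hs hτ hθ hv hP
  exact ⟨E, h1, fun hk hlt => null_lin h1 hk (quot_lt_one hθ hlt), h2⟩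

/-- matrices: tuples of heights -/
theorem full_mat {T ι : Type} {m k : ℕ} (S : Set T) (h : T → Fin m → ℝ) (v : ι → Fin k → ℝ) {s τ θ : ℝ}
    (hs : 0 ≤ s) (hτ : 0 ≤ τ) (hθ : θ < 1) (hv : Fam v τ)
    (hS : ∀ ε : ℝ, 0 < ε → ∃ C : ℝ, ∀ X : ℝ, 1 ≤ X →
      {t | t ∈ S ∧ ∀ l, |h t l| ≤ X}.Finite ∧ ({t | t ∈ S ∧ ∀ l, |h t l| ≤ X}.ncard : ℝ) ≤ C * X ^ (s + ε)) :
    ∃ E : Set (Fin m × Fin k → ℝ), dimH E ≤ ENNReal.ofReal ((m : ℝ) * ((k : ℝ) - 1) + (s + τ) / (1 - θ)) ∧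
      (1 ≤ m → 1 ≤ k → m * θ < m - s - τ → dimH E < ((m * k : ℕ) : ENNReal) ∧ volume E = 0) ∧
      ∀ α, α ∉ E → ∀ c : ℝ,
        {i | ∃ t ∈ S, ∀ l, |h t l - ∑ j, α (l, j) * v i j| ≤ c * ‖v i‖ ^ θ}.Finite := by
  obtain ⟨E, h1, h2⟩ := tuple_windows S h v hs hτ hθ hv hS
  refine ⟨E, h1, fun hm hk hlt => null_mat h1 hm hk ?_, h2⟩
  rw [div_lt_iff₀ (by linarith)]
  linarith

/-- matrices: tuples of heights, countably many sets -/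
theorem full_mat_ctb {J T ι : Type} [Countable J] {m k : ℕ} (S : J → Set T) (h : T → Fin m → ℝ) (v : ι → Fin k → ℝ)
    {s τ θ : ℝ} (hs : 0 ≤ s) (hτ : 0 ≤ τ) (hθ : θ < 1) (hv : Fam v τ)
    (hS : ∀ n : J, ∀ ε : ℝ, 0 < ε → ∃ C : ℝ, ∀ X : ℝ, 1 ≤ X →
      {t | t ∈ S n ∧ ∀ l, |h t l| ≤ X}.Finite ∧ ({t | t ∈ S n ∧ ∀ l, |h t l| ≤ X}.ncard : ℝ) ≤ C * X ^ (s + ε)) :
    ∃ E : Set (Fin m × Fin k → ℝ), dimH E ≤ ENNReal.ofReal ((m : ℝ) * ((k : ℝ) - 1) + (s + τ) / (1 - θ)) ∧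
      (1 ≤ m → 1 ≤ k → m * θ < m - s - τ → dimH E < ((m * k : ℕ) : ENNReal) ∧ volume E = 0) ∧
      ∀ α, α ∉ E → ∀ (n : J) (c : ℝ),
        {i | ∃ t ∈ S n, ∀ l, |h t l - ∑ j, α (l, j) * v i j| ≤ c * ‖v i‖ ^ θ}.Finite := by
  choose E h1 h2 using fun n => tuple_windows (S n) h v hs hτ hθ hv (hS n)
  have hU : dimH (⋃ n, E n) ≤ ENNReal.ofReal ((m : ℝ) * ((k : ℝ) - 1) + (s + τ) / (1 - θ)) := by
    rw [dimH_iUnion]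
    exact iSup_le h1
  refine ⟨⋃ n, E n, hU, fun hm hk hlt => null_mat hU hm hk ?_,
    fun α hα n => h2 n α (fun h => hα (Set.mem_iUnion.2 ⟨n, h⟩))⟩
  rw [div_lt_iff₀ (by linarith)]
  linarith

end Run7.h95.LF
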