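import Pool.Agent.N251.LF.AeTools
import Pool.Agent.N897.AVR.R

/-!
# Exceptional sets of real numbers with a logarithmic saving, and generic linear forms
-/

set_option autoImplicit false

open MeasureTheory Filter Finset

namespace Run7.h95.LF

open Pool.Agent.N251.LF (Slow ae_core ae_row ae_tuples)
open Pool.Agent.N375.AV (LogThin)
open Pool.Agent.N897.AVR (logThin_units)

/-- almost all linear forms are not small at the vectors of a slow family -/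
theorem slow_lower {k : ℕ} {ι : Type} (v : ι → Fin k → ℝ) (hv : Slow v) :
    ∃ A : ℕ, ∀ᵐ α : Fin k → ℝ, {i | |∑ j, α j * v i j| < ‖v i‖ / (1 + Real.log (1 + ‖v i‖)) ^ A}.Finite := by
  have : Countable ι := hv.countable
  obtain ⟨A, hA⟩ := id hv
  refine ⟨A, ?_⟩
  have h0 : ∀ i, (1 : ℝ) ≤ 1 + Real.log (1 + ‖v i‖) := fun i => by
    have := Real.log_nonneg (show (1 : ℝ) ≤ 1 + ‖v i‖ by linarith [norm_nonneg (v i)])
    linarith
  have key : ∀ (j0 : Fin k) (R : ℕ), ∀ᵐ α : Fin 1 × Fin k → ℝ, (∀ p, |α p| ≤ R) →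
      {i | (∀ j, |v i j| ≤ |v i j0|) ∧ v i j0 ≠ 0 ∧
        |∑ j, α (0, j) * v i j| < ‖v i‖ / (1 + Real.log (1 + ‖v i‖)) ^ A}.Finite := by
    intro j0 R
    set I : Type := {i : ι // (∀ j, |v i j| ≤ |v i j0|) ∧ v i j0 ≠ 0} with hI
    have hcore := ae_core (m := 1) j0 (fun i : I => v i.1) (fun i => i.2.2) (fun _ => ({()} : Finset Unit))
      (fun _ _ => (0 : ℝ)) (fun i => ‖v i.1‖ / (1 + Real.log (1 + ‖v i.1‖)) ^ A) (fun i => by
        have := h0 i.1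
        positivity) (by
        refine (hA.comp_injective (Subtype.val_injective (p := fun i : ι => (∀ j, |v i j| ≤ |v i j0|) ∧
          v i j0 ≠ 0))).congr fun i => ?_
        have h1 : ‖v i.1‖ = |v i.1 j0| := le_antisymm ((pi_norm_le_iff_of_nonneg (abs_nonneg _)).2 i.2.1)
          (norm_le_pi_norm (v i.1) j0)
        have h2 : |v i.1 j0| ≠ 0 := abs_ne_zero.2 i.2.2
        have h3 := h0 i.1
        have h4 : (1 + Real.log (1 + ‖v i.1‖)) ^ A ≠ 0 := by positivity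
        simp only [Function.comp, card_singleton, Nat.cast_one, one_mul, pow_one]
        rw [h1] at h4 ⊢
        field_simp) (R : ℝ)
    filter_upwards [hcore] with α hα hR
    refine ((hα hR).image Subtype.val).subset ?_
    rintro i ⟨h1, h2, h3⟩
    refine ⟨⟨i, h1, h2⟩, ⟨(), mem_singleton_self _, fun l => ?_⟩, rfl⟩
    have hl : l = 0 := Subsingleton.elim _ _
    rw [hl, sub_zero]
    exact h3.le
  have key2 : ∀ᵐ α : Fin 1 × Fin k → ℝ, ∀ (j0 : Fin k) (R : ℕ), (∀ p, |α p| ≤ R) →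
      {i | (∀ j, |v i j| ≤ |v i j0|) ∧ v i j0 ≠ 0 ∧
        |∑ j, α (0, j) * v i j| < ‖v i‖ / (1 + Real.log (1 + ‖v i‖)) ^ A}.Finite :=
    ae_all_iff.2 fun j0 => ae_all_iff.2 fun R => key j0 R
  refine ae_row _ ?_
  filter_upwards [key2] with α hα
  obtain ⟨R, hR⟩ := exists_nat_ge ‖α‖
  have hR' : ∀ p, |α p| ≤ R := fun p => (norm_le_pi_norm α p).trans hR
  refine (Set.finite_iUnion fun j0 : Fin k => hα j0 R hR').subset ?_
  intro i hi
  have hi' : |∑ j, α (0, j) * v i j| < ‖v i‖ / (1 + Real.log (1 + ‖v i‖)) ^ A := hi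
  have hpos : 0 < ‖v i‖ := by
    by_contra hcon
    have h1 : ‖v i‖ = 0 := le_antisymm (not_lt.1 hcon) (norm_nonneg _)
    rw [h1, zero_div] at hi'
    exact absurd hi' (not_lt.2 (abs_nonneg _))
  have hne : Nonempty (Fin k) := by
    by_contra hemp
    rw [not_nonempty_iff] at hemp
    have : ‖v i‖ ≤ 0 := (pi_norm_le_iff_of_nonneg le_rfl).2 fun j => (hemp.false j).elim
    linarith
  obtain ⟨j0, hj0⟩ := Finite.exists_max (fun j => |v i j|)
  have h1 : ‖v i‖ = |v i j0| := le_antisymm ((pi_norm_le_iff_of_nonneg (abs_nonneg _)).2 hj0)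
    (norm_le_pi_norm (v i) j0)
  refine Set.mem_iUnion.2 ⟨j0, hj0, ?_, hi'⟩
  rw [h1] at hpos
  exact abs_pos.1 hpos

/-- almost all vectors of length `k + 1` in terms of the first entry and the others -/
theorem ae_cons {k : ℕ} (Q : ℝ → (Fin k → ℝ) → Prop)
    (h : ∀ᵐ γ : Fin (k + 1) → ℝ, Q (γ 0) (fun j => γ j.succ)) :
    ∀ᵐ α : Fin k → ℝ, ∀ᵐ β : ℝ, Q β α := by
  have h1 := (volume_preserving_piFinSuccAbove (fun _ : Fin (k + 1) => ℝ) 0).symm.quasiMeasurePreserving.ae h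
  have h2 : ∀ᵐ x : ℝ × (Fin k → ℝ), Q x.1 x.2 := by
    filter_upwards [h1] with x hx
    have e1 : ((MeasurableEquiv.piFinSuccAbove (fun _ : Fin (k + 1) => ℝ) 0).symm x) 0 = x.1 := by
      simp [MeasurableEquiv.piFinSuccAbove]
    have e2 : (fun j : Fin k => ((MeasurableEquiv.piFinSuccAbove (fun _ : Fin (k + 1) => ℝ) 0).symm x) j.succ) = x.2 := by
      funext j
      simp [MeasurableEquiv.piFinSuccAbove]
    rw [e1, e2] at hx
    exact hx
  have h3 : ∀ᵐ x : (Fin k → ℝ) × ℝ, Q x.2 x.1 := by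
    have h4 := (Measure.measurePreserving_swap (μ := (volume : Measure (Fin k → ℝ)))
      (ν := (volume : Measure ℝ))).quasiMeasurePreserving.ae (p := fun x : ℝ × (Fin k → ℝ) => Q x.1 x.2) h2
    exact h4
  exact Measure.ae_ae_of_ae_prod h3

open Classical in
/-- a set of natural numbers with a saving of every power of the logarithm, in the form of `ae_tuples` -/
lemma count_of_logThin {P : Set ℕ} (hP : LogThin P) : ∀ U : ℕ, ∃ C X₀ : ℝ, ∀ X : ℝ, X₀ ≤ X →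
    {t : ℕ | t ∈ P ∧ ∀ _ : Fin 1, |(t : ℝ)| ≤ X}.Finite ∧
      (({t : ℕ | t ∈ P ∧ ∀ _ : Fin 1, |(t : ℝ)| ≤ X}.ncard : ℕ) : ℝ) ≤ C * X ^ 1 / Real.log X ^ U := by
  intro U
  obtain ⟨K, hK⟩ := hP U
  refine ⟨|K|, 4, fun X hX => ?_⟩
  have hX1 : 1 ≤ ⌊X⌋₊ := Nat.le_floor (by rw [Nat.cast_one]; linarith)
  have hsub : {t : ℕ | t ∈ P ∧ ∀ _ : Fin 1, |(t : ℝ)| ≤ X} ⊆
      (((range (⌊X⌋₊ + 1)).filter (fun v => v ∈ P) : Finset ℕ) : Set ℕ) := by
    rintro t ⟨h1, h2⟩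
    have h3 := h2 0
    rw [abs_of_nonneg (Nat.cast_nonneg _)] at h3
    rw [coe_filter]
    exact ⟨mem_range.2 (Nat.lt_succ_of_le (Nat.le_floor h3)), h1⟩
  have hfin := (Finset.finite_toSet _).subset hsub
  refine ⟨hfin, ?_⟩
  have h1 := Set.ncard_le_ncard hsub (Finset.finite_toSet _)
  rw [Set.ncard_coe_finset] at h1
  have h2 : (({t : ℕ | t ∈ P ∧ ∀ _ : Fin 1, |(t : ℝ)| ≤ X}.ncard : ℕ) : ℝ) ≤
      (((range (⌊X⌋₊ + 1)).filter (fun v => v ∈ P)).card : ℝ) := by exact_mod_cast h1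
  refine (h2.trans (hK _ hX1)).trans ?_
  have hfl : (⌊X⌋₊ : ℝ) ≤ X := Nat.floor_le (by linarith)
  have hfl2 : X / 2 ≤ (⌊X⌋₊ : ℝ) := by
    have := Nat.sub_one_lt_floor X
    linarith
  have hlog : Real.log X ≤ 1 + Real.log (⌊X⌋₊ : ℝ) := by
    have h5 : Real.log (X / 2) ≤ Real.log (⌊X⌋₊ : ℝ) := Real.log_le_log (by linarith) hfl2
    rw [Real.log_div (by linarith) (by norm_num)] at h5
    have := Real.log_two_lt_d9
    linarith
  have hl0 : 0 < Real.log X := Real.log_pos (by linarith)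
  rw [pow_one]
  refine div_le_div₀ (by positivity) ?_ (by positivity) (pow_le_pow_left₀ hl0.le hlog U)
  calc K * (⌊X⌋₊ : ℝ) ≤ |K| * (⌊X⌋₊ : ℝ) := mul_le_mul_of_nonneg_right (le_abs_self _) (Nat.cast_nonneg _)
    _ ≤ |K| * X := mul_le_mul_of_nonneg_left hfl (abs_nonneg _)

/-- the vectors of a slow family with an additional coordinate -/
lemma slow_cons {k : ℕ} {ι : Type} {v : ι → Fin k → ℝ} (hv : Slow v) (u : ι → ℝ) :
    Slow (fun i => (Fin.cons (u i) (v i) : Fin (k + 1) → ℝ)) := by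
  obtain ⟨A, hA⟩ := hv
  refine ⟨A, Summable.of_nonneg_of_le (fun i => ?_) (fun i => ?_) hA⟩
  · have := Real.log_nonneg (show (1 : ℝ) ≤ 1 + ‖(Fin.cons (u i) (v i) : Fin (k + 1) → ℝ)‖ by
      linarith [norm_nonneg (Fin.cons (u i) (v i) : Fin (k + 1) → ℝ)])
    positivity
  · have h1 : ‖v i‖ ≤ ‖(Fin.cons (u i) (v i) : Fin (k + 1) → ℝ)‖ := by
      refine (pi_norm_le_iff_of_nonneg (norm_nonneg _)).2 fun j => ?_
      have := norm_le_pi_norm (Fin.cons (u i) (v i) : Fin (k + 1) → ℝ) j.succ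
      simpa using this
    have h0 := norm_nonneg (v i)
    have h2 : 0 ≤ Real.log (1 + ‖v i‖) := Real.log_nonneg (by linarith)
    have h3 : Real.log (1 + ‖v i‖) ≤ Real.log (1 + ‖(Fin.cons (u i) (v i) : Fin (k + 1) → ℝ)‖) :=
      Real.log_le_log (by linarith) (by linarith)
    refine one_div_le_one_div_of_le (by positivity) ?_
    exact pow_le_pow_left₀ (by linarith) (by linarith) A

/-- **Windows of polynomial length.** Let `B` and `B'` be sets of real numbers such that `[t, t + t ^ ρ] ⊆ B'` for all large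
`t` in `B`, and let the measure of `B' ∩ [T, 2 T]` be at most `T / (log T) ^ A` for large `T`, for every `A`. Let the sum of the
`1 / (1 + log (1 + ‖v_i‖)) ^ A` converge for some `A` and let `0 ≤ η < ρ ≤ 1`. For almost all `α` and all `w`, for all but
finitely many `i` no positive `t` with `|t - ∑ α_j v_(i,j)| ≤ w ‖v_i‖ ^ η` is in `B`. -/
theorem real_log {k : ℕ} {ι : Type} (v : ι → Fin k → ℝ) (hv : Slow v) (B B' : Set ℝ) {η ρ : ℝ} (hη0 : 0 ≤ η)
    (hηρ : η < ρ) (hρ1 : ρ ≤ 1)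
    (hB' : ∀ A : ℕ, ∃ T₀ : ℝ, ∀ T : ℝ, T₀ ≤ T → volume (B' ∩ Set.Icc T (2 * T)) ≤ ENNReal.ofReal (T / Real.log T ^ A))
    (hsp : ∃ t₀ : ℝ, ∀ t : ℝ, t₀ ≤ t → t ∈ B → ∀ s : ℝ, t ≤ s → s ≤ t + t ^ ρ → s ∈ B') :
    ∀ᵐ α : Fin k → ℝ, ∀ w : ℝ, {i | ∃ t : ℝ, 0 < t ∧ |t - ∑ j, α j * v i j| ≤ w * ‖v i‖ ^ η ∧ t ∈ B}.Finite := by
  classical
  obtain ⟨η', hη'⟩ : ∃ η' : ℝ, η' = (η + ρ) / 2 := ⟨_, rfl⟩
  have h1 : η < η' := by rw [hη']; linarith
  have h2 : η' < ρ := by rw [hη']; linarith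
  have hη'0 : 0 < η' := by linarith
  have hρ0 : 0 < ρ := by linarith
  obtain ⟨A, hA⟩ := slow_lower v hv
  have hP := count_of_logThin (logThin_units hB')
  have hae := ae_tuples {n : ℕ | Set.Ico (n : ℝ) (n + 1) ⊆ B'} (fun (n : ℕ) (_ : Fin 1) => (n : ℝ)) hP
    (fun i => (Fin.cons (‖v i‖ ^ η') (v i) : Fin (k + 1) → ℝ)) (slow_cons hv _)
  have hrow : ∀ᵐ γ : Fin (k + 1) → ℝ, {i | ∃ n : ℕ, Set.Ico (n : ℝ) (n + 1) ⊆ B' ∧
      |(n : ℝ) - (γ 0 * ‖v i‖ ^ η' + ∑ j : Fin k, γ j.succ * v i j)| ≤ 1}.Finite := by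
    refine ae_row _ ?_
    filter_upwards [hae] with γ hγ
    refine (hγ 1 0).subset ?_
    rintro i ⟨n, hn, hn2⟩
    refine ⟨n, hn, fun l => ?_⟩
    have hl : l = 0 := Subsingleton.elim _ _
    rw [hl, Fin.sum_univ_succ, pow_zero, mul_one]
    simpa using hn2
  have hcons := ae_cons (fun β α => {i | ∃ n : ℕ, Set.Ico (n : ℝ) (n + 1) ⊆ B' ∧
      |(n : ℝ) - (β * ‖v i‖ ^ η' + ∑ j : Fin k, α j * v i j)| ≤ 1}.Finite) hrow
  -- the conditions for large norms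
  obtain ⟨κ, hκ⟩ : ∃ κ : ℝ, κ = (η' / ρ + 1) / 2 := ⟨_, rfl⟩
  have hq : η' / ρ < 1 := (div_lt_one hρ0).2 h2
  have hκ1 : κ < 1 := by rw [hκ]; linarith
  have hκ2 : η' / ρ < κ := by rw [hκ]; linarith
  have hκ3 : η' < κ * ρ := (div_lt_iff₀ hρ0).1 hκ2
  have hκ0 : 0 < κ := lt_trans (div_pos hη'0 hρ0) hκ2
  have hκ4 : η' < κ := hκ3.trans_le (mul_le_of_le_one_right hκ0.le hρ1)
  obtain ⟨t₀, ht₀⟩ := hsp
  have e1 : ∀ᶠ x : ℝ in atTop, 2 * (1 + Real.log (1 + x)) ^ A ≤ x ^ (1 - κ) := by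
    have h3 := isLittleO_log_rpow_rpow_atTop (A : ℝ) (show (0 : ℝ) < 1 - κ by linarith)
    have h4 : Tendsto (fun x : ℝ => Real.exp 1 * (1 + x)) atTop atTop :=
      (tendsto_atTop_add_const_left _ 1 tendsto_id).const_mul_atTop (Real.exp_pos 1)
    have h5 := h4.eventually (h3.bound (show (0 : ℝ) < 1 / (2 * (2 * Real.exp 1) ^ (1 - κ)) by positivity))
    filter_upwards [h5, eventually_ge_atTop (1 : ℝ)] with x h6 h7
    have h8 : Real.log (Real.exp 1 * (1 + x)) = 1 + Real.log (1 + x) := by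
      rw [Real.log_mul (Real.exp_pos 1).ne' (by linarith), Real.log_exp]
    have h9 : 0 ≤ 1 + Real.log (1 + x) := by
      have := Real.log_nonneg (show (1 : ℝ) ≤ 1 + x by linarith)
      linarith
    rw [h8, Real.rpow_natCast, Real.norm_of_nonneg (pow_nonneg h9 _), Real.norm_of_nonneg (by positivity)] at h6
    have h10 : (Real.exp 1 * (1 + x)) ^ (1 - κ) ≤ (2 * Real.exp 1) ^ (1 - κ) * x ^ (1 - κ) := by
      rw [← Real.mul_rpow (by positivity) (by linarith)]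
      refine Real.rpow_le_rpow (by positivity) ?_ (by linarith)
      have := Real.exp_pos 1
      nlinarith
    calc 2 * (1 + Real.log (1 + x)) ^ A ≤ 2 * (1 / (2 * (2 * Real.exp 1) ^ (1 - κ)) *
          (Real.exp 1 * (1 + x)) ^ (1 - κ)) := by linarith
      _ ≤ 2 * (1 / (2 * (2 * Real.exp 1) ^ (1 - κ)) * ((2 * Real.exp 1) ^ (1 - κ) * x ^ (1 - κ))) := by
          refine mul_le_mul_of_nonneg_left (mul_le_mul_of_nonneg_left h10 (by positivity)) (by norm_num)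
      _ = x ^ (1 - κ) := by field_simp
  have e2 : ∀ᶠ x : ℝ in atTop, 3 * x ^ η' + 2 ≤ x ^ (κ * ρ) := by
    have h3 := (tendsto_rpow_atTop (show 0 < κ * ρ - η' by linarith)).eventually (eventually_ge_atTop (5 : ℝ))
    filter_upwards [h3, eventually_ge_atTop (1 : ℝ)] with x h6 h7
    have h8 : 1 ≤ x ^ η' := Real.one_le_rpow h7 hη'0.le
    calc 3 * x ^ η' + 2 ≤ 5 * x ^ η' := by linarith
      _ ≤ x ^ (κ * ρ - η') * x ^ η' := mul_le_mul_of_nonneg_right h6 (by positivity)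
      _ = x ^ (κ * ρ) := by rw [← Real.rpow_add (by linarith), sub_add_cancel]
  have e3 : ∀ᶠ x : ℝ in atTop, t₀ ≤ x ^ κ := (tendsto_rpow_atTop hκ0).eventually (eventually_ge_atTop t₀)
  have e4 : ∀ w : ℝ, ∀ᶠ x : ℝ in atTop, w * x ^ η ≤ x ^ η' := by
    intro w
    have h3 := (tendsto_rpow_atTop (show 0 < η' - η by linarith)).eventually (eventually_ge_atTop w)
    filter_upwards [h3, eventually_ge_atTop (1 : ℝ)] with x h6 h7
    calc w * x ^ η ≤ x ^ (η' - η) * x ^ η := mul_le_mul_of_nonneg_right h6 (by positivity)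
      _ = x ^ η' := by rw [← Real.rpow_add (by linarith), sub_add_cancel]
  filter_upwards [hA, hcons] with α hα1 hα2
  intro w
  obtain ⟨β, ⟨hβ1, hβ2⟩, hβ⟩ : ∃ β : ℝ, β ∈ Set.Icc (1 : ℝ) 2 ∧ {i | ∃ n : ℕ, Set.Ico (n : ℝ) (n + 1) ⊆ B' ∧
      |(n : ℝ) - (β * ‖v i‖ ^ η' + ∑ j : Fin k, α j * v i j)| ≤ 1}.Finite := by
    have hfr : ∃ᶠ β : ℝ in ae volume, β ∈ Set.Icc (1 : ℝ) 2 := by
      rw [frequently_ae_mem_iff, Real.volume_Icc]
      norm_num
    exact (hfr.and_eventually hα2).exists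
  obtain ⟨Y, hY⟩ := eventually_atTop.1 (((e1.and e2).and (e3.and (e4 w))).and (eventually_ge_atTop (1 : ℝ)))
  refine ((hv.finite Y).union (hα1.union hβ)).subset ?_
  rintro i ⟨t, ht0, htw, htB⟩
  by_cases hiY : ‖v i‖ ≤ Y
  · exact Or.inl hiY
  right
  by_cases hlow : |∑ j, α j * v i j| < ‖v i‖ / (1 + Real.log (1 + ‖v i‖)) ^ A
  · exact Or.inl hlow
  right
  obtain ⟨⟨⟨g1, g2⟩, g3, g4⟩, g5⟩ := hY ‖v i‖ (not_le.1 hiY).le
  obtain ⟨x, hx⟩ : ∃ x : ℝ, x = ‖v i‖ := ⟨_, rfl⟩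
  obtain ⟨L, hL⟩ : ∃ L : ℝ, L = ∑ j, α j * v i j := ⟨_, rfl⟩
  rw [← hx] at g1 g2 g3 g4 g5 htw hlow
  rw [← hL] at htw hlow
  have hx0 : 0 < x := by linarith
  have hlogp : 0 < (1 + Real.log (1 + x)) ^ A := by
    have := Real.log_nonneg (show (1 : ℝ) ≤ 1 + x by linarith)
    positivity
  -- `|L| ≥ 2 x ^ κ`
  have k1 : 2 * x ^ κ ≤ |L| := by
    refine le_trans ?_ (not_lt.1 hlow)
    rw [le_div_iff₀ hlogp]
    calc 2 * x ^ κ * (1 + Real.log (1 + x)) ^ A = x ^ κ * (2 * (1 + Real.log (1 + x)) ^ A) := by ring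
      _ ≤ x ^ κ * x ^ (1 - κ) := mul_le_mul_of_nonneg_left g1 (by positivity)
      _ = x := by rw [← Real.rpow_add hx0, add_sub_cancel, Real.rpow_one]
  have k2 : x ^ η' ≤ x ^ κ := Real.rpow_le_rpow_of_exponent_le g5 hκ4.le
  have hxη : 0 < x ^ η' := by positivity
  obtain ⟨k3, k4⟩ := abs_le.1 (htw.trans g4)
  have k5 : 0 < L := by
    by_contra hcon
    rw [abs_of_nonpos (not_lt.1 hcon)] at k1
    linarith
  rw [abs_of_pos k5] at k1
  have k6 : x ^ κ ≤ t := by linarith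
  have k7 : 3 * x ^ η' + 2 ≤ t ^ ρ := by
    refine g2.trans ?_
    rw [Real.rpow_mul hx0.le]
    exact Real.rpow_le_rpow (by positivity) k6 hρ0.le
  have k8 : x ^ η' ≤ β * x ^ η' := le_mul_of_one_le_left hxη.le hβ1
  have k9 : β * x ^ η' ≤ 2 * x ^ η' := mul_le_mul_of_nonneg_right hβ2 hxη.le
  refine ⟨⌈β * x ^ η' + L⌉₊, ?_, ?_⟩
  · intro s hs
    have h3 := Nat.le_ceil (β * x ^ η' + L)
    have h4 := Nat.ceil_lt_add_one (show 0 ≤ β * x ^ η' + L by linarith)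
    have h5 := hs.1
    have h6 := hs.2
    exact ht₀ t (g3.trans k6) htB s (by linarith) (by linarith)
  · rw [← hx, ← hL]
    have h3 := Nat.le_ceil (β * x ^ η' + L)
    have h4 := Nat.ceil_lt_add_one (show 0 ≤ β * x ^ η' + L by linarith)
    rw [abs_le]
    constructor <;> linarith

/-- natural numbers near the values of generic linear forms at the vectors of a slow family are not in a set with a saving of
every power of the logarithm -/
theorem logThin_lin {k : ℕ} {ι : Type} {P : Set ℕ} (hP : LogThin P) (v : ι → Fin k → ℝ) (hv : Slow v) :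
    ∀ᵐ α : Fin k → ℝ, ∀ (w : ℝ) (B : ℕ),
      {i | ∃ n ∈ P, |(n : ℝ) - ∑ j, α j * v i j| ≤ w * (1 + Real.log (1 + ‖v i‖)) ^ B}.Finite := by
  have hae := ae_tuples P (fun (n : ℕ) (_ : Fin 1) => (n : ℝ)) (count_of_logThin hP) v hv
  refine ae_row _ ?_
  filter_upwards [hae] with γ hγ w B
  refine (hγ w B).subset ?_
  rintro i ⟨n, hn, hn2⟩
  refine ⟨n, hn, fun l => ?_⟩
  have hl : l = 0 := Subsingleton.elim _ _
  rw [hl]
  exact hn2

end Run7.h95.LF
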